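import Pool.Agent.N422.KT.Stm

/-! Project KT (helper422), job KT/FX (helper395, after LR/FX of helper910): the theorem for tuples. -/

set_option autoImplicit false

open Finset

namespace Pool.Agent.N422.KT

open Pool.Agent.N422.NW Pool.Agent.N422.SL Pool.Agent.N422.WS Pool.Agent.N422.LG Pool.Agent.N422.LR

theorem FX_mono (Q : ℕ) {F G : ℕ → ℝ} (h : ∀ n, F n ≤ G n) : mP Q F ≤ mP Q G := by
  unfold mP
  exact div_le_div_of_nonneg_right (Finset.sum_le_sum fun n _ => h n) (Nat.cast_nonneg _)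

theorem FX_smul (Q : ℕ) (a : ℝ) (F : ℕ → ℝ) : mP Q (fun n => a * F n) = a * mP Q F := by
  unfold mP
  rw [← Finset.mul_sum, mul_div_assoc]

theorem FX_zero (Q : ℕ) {F : ℕ → ℝ} (h : ∀ n, F n = 0) : mP Q F = 0 := by
  unfold mP
  rw [Finset.sum_eq_zero fun n _ => h n, zero_div]

/-- the sifted set depends on `n` modulo the product of the primes only -/
theorem FX_per (H : Finset ℕ) (U Q n : ℕ) : SH H U Q (n % PP Q) = SH H U Q n := by
  unfold SH
  refine Finset.filter_congr fun h _ => ?_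
  refine forall₂_congr fun p hp => ?_
  refine forall₂_congr fun g _ => ?_
  have hd : p ∣ PP Q := by
    unfold PP
    exact Finset.dvd_prod_of_mem _ hp
  have h1 : n % PP Q + h + g ≡ n + h + g [MOD p] :=
    Nat.ModEq.add_right g (Nat.ModEq.add_right h ((Nat.mod_modEq n (PP Q)).of_dvd hd))
  rw [h1.dvd_iff (dvd_refl p)]

theorem FX_ev (y0 k : ℕ) (C A B : ℝ) (hA : 0 ≤ A) (hB : 0 ≤ B) : ∀ᶠ Q : ℕ in Filter.atTop,
    3 ≤ Q ∧ 3 ≤ Real.log Q ∧ (y0 : ℝ) ≤ Real.log Q ∧ C ≤ Real.log (Real.log Q) ∧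
    A * Real.log (Real.log Q) ^ 4 ≤ Real.log Q ^ 2 ∧
    Real.log Q ^ (k + 3) ≤ Q ∧ B * Real.log (Real.log Q) ≤ Real.log Q := by
  have t1 : Filter.Tendsto (fun Q : ℕ => (Q : ℝ)) Filter.atTop Filter.atTop := tendsto_natCast_atTop_atTop
  have t2 : Filter.Tendsto (fun Q : ℕ => Real.log Q) Filter.atTop Filter.atTop :=
    Real.tendsto_log_atTop.comp t1
  have t3 : Filter.Tendsto (fun Q : ℕ => Real.log (Real.log Q)) Filter.atTop Filter.atTop :=
    Real.tendsto_log_atTop.comp t2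
  have e5 : ∀ᶠ x : ℝ in Filter.atTop, A * Real.log x ^ 4 ≤ x ^ 2 := by
    have h := (Real.isLittleO_pow_log_id_atTop (n := 4)).def
      (show (0 : ℝ) < 1 / (A + 1) by positivity)
    filter_upwards [h, Filter.eventually_ge_atTop (1 : ℝ)] with x hx hx1
    have hl : 0 ≤ Real.log x := Real.log_nonneg hx1
    rw [Real.norm_of_nonneg (by positivity), id, Real.norm_of_nonneg (by linarith)] at hx
    have h4 : A * (1 / (A + 1)) ≤ 1 := by
      rw [mul_one_div, div_le_one (by linarith)]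
      linarith
    have h5 := mul_le_mul_of_nonneg_left hx hA
    have h6 : A * (1 / (A + 1) * x) ≤ x := by nlinarith
    nlinarith
  have e6 : ∀ᶠ x : ℝ in Filter.atTop, Real.log x ^ (k + 3) ≤ x := by
    have h := (Real.isLittleO_pow_log_id_atTop (n := k + 3)).def
      (show (0 : ℝ) < 1 by norm_num)
    filter_upwards [h, Filter.eventually_ge_atTop (1 : ℝ)] with x hx hx1
    have hl : 0 ≤ Real.log x := Real.log_nonneg hx1
    rw [Real.norm_of_nonneg (by positivity), id, Real.norm_of_nonneg (by linarith), one_mul] at hx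
    exact hx
  have e7 : ∀ᶠ x : ℝ in Filter.atTop, B * Real.log x ≤ x := by
    have h := (Real.isLittleO_pow_log_id_atTop (n := 1)).def
      (show (0 : ℝ) < 1 / (B + 1) by positivity)
    filter_upwards [h, Filter.eventually_ge_atTop (1 : ℝ)] with x hx hx1
    have hl : 0 ≤ Real.log x := Real.log_nonneg hx1
    rw [Real.norm_of_nonneg (by positivity), id, Real.norm_of_nonneg (by linarith), pow_one] at hx
    have h4 : B * (1 / (B + 1)) ≤ 1 := by
      rw [mul_one_div, div_le_one (by linarith)]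
      linarith
    have h5 := mul_le_mul_of_nonneg_left hx hB
    have h6 : B * (1 / (B + 1) * x) ≤ x := by nlinarith
    linarith
  filter_upwards [Filter.eventually_ge_atTop 3, t2.eventually_ge_atTop 3, t2.eventually_ge_atTop (y0 : ℝ),
    t3.eventually_ge_atTop C, t2.eventually e5, t1.eventually e6,
    t2.eventually e7] with Q a1 a2 a3 a4 a5 a7 a8
  exact ⟨a1, a2, a3, a4, a5, a7, a8⟩

theorem t_FX (h1 : Pool.Agent.N422.KT.S_RX) (h2 : Pool.Agent.N422.KT.S_LOW)
    (h3 : Pool.Agent.N422.LG.S_MERB2) (h4 : Pool.Agent.N422.LR.S_SQF) : Pool.Agent.N422.KT.S_FX := by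
  intro H hH hAdm
  obtain ⟨C, hC, h1⟩ := h1 H hH
  have hC0 : 0 < C := by linarith
  obtain ⟨C2, y0, c, hC2, hc, hlow⟩ := h2 H hH hAdm
  obtain ⟨K, hK, h3⟩ := h3
  have hK0 : 0 < K := by linarith
  obtain ⟨k, hk⟩ : ∃ k : ℕ, k = H.card := ⟨_, rfl⟩
  have hk1 : 1 ≤ k := by rw [hk]; exact hH.card_pos
  rw [← hk] at h1 hlow
  obtain ⟨κ, hκ⟩ : ∃ κ : ℝ, κ = (k : ℝ) := ⟨_, rfl⟩
  have hκ1 : 1 ≤ κ := by rw [hκ]; exact_mod_cast hk1
  have hκ0 : 0 < κ := by linarith
  obtain ⟨A, hA⟩ : ∃ A : ℝ, A = 17408 * Real.exp 1 * C ^ 4 * κ ^ 3 * K ^ (k + 1) / c := ⟨_, rfl⟩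
  have hA0 : 0 < A := by rw [hA]; positivity
  obtain ⟨Q0, hQ0⟩ := Filter.eventually_atTop.1
    (FX_ev y0 k (Real.log K + 1) (16 * A) (32 * C ^ 2 * κ) (by positivity) (by positivity))
  refine ⟨(k + 3) * C2 + (k + 2), Q0, fun Q hQ U hU w hw => ?_⟩
  obtain ⟨q1, q2, q3, q4, q5, q7, q8⟩ := hQ0 Q hQ
  by_contra hpos
  push Not at hpos
  obtain ⟨w', hw1, hw2⟩ := h4 Q w (by omega)
  have hneg : ∀ n, (SH H U Q n).Nonempty → ws Q w' n ≤ 0 := by
    intro n hn
    refine hw2 {n | (SH H U Q n).Nonempty} (fun n => ?_) hw n hn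
    simp only [Set.mem_ofPred_eq]
    rw [FX_per]
  have hmp : 0 < mP Q (ws Q w') := by rw [hw1]; exact hpos
  set L : ℝ := Real.log Q with hL
  clear_value L
  have hL0 : 0 < L := by linarith
  have hL1 : 1 ≤ L := by linarith
  have hLL : 0 ≤ Real.log L := Real.log_nonneg hL1
  have hLK : 0 ≤ Real.log K := Real.log_nonneg hK
  -- the parameter `T`
  obtain ⟨T, hT⟩ : ∃ T : ℝ, T = Real.log L + Real.log K + 1 := ⟨_, rfl⟩
  have hT1 : 1 ≤ T := by rw [hT]; linarith
  have hT0 : 0 < T := by linarith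
  have hT2 : T ≤ 2 * Real.log L := by rw [hT]; linarith
  have hAT : A * T ^ 4 ≤ L ^ 2 := by
    have h5 : T ^ 4 ≤ (2 * Real.log L) ^ 4 := pow_le_pow_left₀ hT0.le hT2 4
    calc A * T ^ 4 ≤ A * (2 * Real.log L) ^ 4 := mul_le_mul_of_nonneg_left h5 hA0.le
      _ = 16 * A * Real.log L ^ 4 := by ring
      _ ≤ L ^ 2 := q5
  -- the first scale
  set y : ℕ := ⌈L ^ (k + 2)⌉₊ with hy
  have hLk1 : 1 ≤ L ^ (k + 2) := one_le_pow₀ hL1
  have hLk2 : L ≤ L ^ (k + 2) := by
    calc L = L ^ 1 := (pow_one L).symm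
      _ ≤ L ^ (k + 2) := pow_le_pow_right₀ hL1 (by omega)
  have hy1 : L ^ (k + 2) ≤ (y : ℝ) := Nat.le_ceil _
  have hy2 : (y : ℝ) < L ^ (k + 2) + 1 := Nat.ceil_lt_add_one (by positivity)
  have hyL : L ≤ (y : ℝ) := hLk2.trans hy1
  have hy5 : (y : ℝ) ≤ L ^ (k + 3) := by
    have h4 : L ^ (k + 3) = L ^ (k + 2) * L := pow_succ L (k + 2)
    rw [h4]
    nlinarith
  have hy3 : 3 ≤ y := by
    have : (3 : ℝ) ≤ y := by linarith
    exact_mod_cast this
  have hyQ : y ≤ Q := by
    have : (y : ℝ) ≤ Q := hy5.trans q7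
    exact_mod_cast this
  have hyy0 : y0 ≤ y := by
    have : (y0 : ℝ) ≤ y := by linarith
    exact_mod_cast this
  have hU1 : L ^ ((k + 3) * C2) ≤ U :=
    (pow_le_pow_right₀ hL1 (by omega)).trans hU
  have hU2 : L ^ (k + 2) ≤ U :=
    (pow_le_pow_right₀ hL1 (by omega)).trans hU
  have hUy : y ^ C2 ≤ U := by
    have h5 : (y : ℝ) ^ C2 ≤ U := by
      calc (y : ℝ) ^ C2 ≤ (L ^ (k + 3)) ^ C2 := pow_le_pow_left₀ (Nat.cast_nonneg _) hy5 _
        _ = L ^ ((k + 3) * C2) := (pow_mul L (k + 3) C2).symm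
        _ ≤ U := hU1
    exact_mod_cast h5
  have hf := hlow y hyy0 U hUy
  have hlogy : 0 < Real.log y := by
    apply Real.log_pos
    linarith
  -- Mertens
  obtain ⟨m1, m2, m3, m4⟩ := h3 y Q (by omega) hyQ
  have hU0 : (0 : ℝ) ≤ U := Nat.cast_nonneg _
  have hUpos : (0 : ℝ) < U := lt_of_lt_of_le (by positivity) hU2
  -- the mean
  obtain ⟨M, hM⟩ : ∃ M : ℝ, M = mP Q (fun n => max (ws Q w' n) 0) := ⟨_, rfl⟩
  have hM0 : 0 < M := by
    rw [hM]
    exact lt_of_lt_of_le hmp (FX_mono Q fun n => le_max_left _ _)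
  have hm : c * (U / Real.log y ^ k) * M ≤
      mP Q (fun n => max (ws Q w' n) 0 * ((SH H U y n).card : ℝ)) := by
    rw [hM, ← FX_smul]
    refine FX_mono Q fun n => ?_
    rw [mul_comm]
    exact mul_le_mul_of_nonneg_left (hf n) (le_max_right _ _)
  have hzero : mP Q (fun n => max (ws Q w' n) 0 * ((SH H U Q n).card : ℝ)) = 0 := by
    refine FX_zero Q fun n => ?_
    rcases Finset.eq_empty_or_nonempty (SH H U Q n) with h | h
    · rw [h, Finset.card_empty, Nat.cast_zero, mul_zero]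
    · rw [max_eq_right (hneg n h), zero_mul]
  -- the sum
  set D : ℝ := ∑ p ∈ PQ Q y, 1 / (p : ℝ) with hD
  have hD0 : 0 ≤ D := Finset.sum_nonneg fun p _ => by positivity
  have hDT : D ≤ T := by
    have h4 : Real.log y / L ≤ K * Real.exp (-D) := by rw [hL]; exact m2
    have h5 : Real.exp D ≤ K * L := by
      have h6 : Real.log y / L * (Real.exp D * L) ≤ K * Real.exp (-D) * (Real.exp D * L) :=
        mul_le_mul_of_nonneg_right h4 (by positivity)
      have h7 : K * Real.exp (-D) * (Real.exp D * L) = K * L := by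
        rw [Real.exp_neg]
        field_simp
      have h8 : Real.log y / L * (Real.exp D * L) = Real.log y * Real.exp D := by
        field_simp
      rw [h7, h8] at h6
      have h9 : 1 ≤ Real.log y := by
        rw [Real.le_log_iff_exp_le (by linarith)]
        have := Real.exp_one_lt_d9
        linarith
      have h10 := Real.exp_pos D
      nlinarith
    have h6 := Real.log_le_log (Real.exp_pos D) h5
    rw [Real.log_exp, Real.log_mul hK0.ne' hL0.ne'] at h6
    rw [hT]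
    linarith
  -- the parameter `δ`
  obtain ⟨δ, hδ⟩ : ∃ δ : ℝ, δ = 1 / (16 * C * κ * T) := ⟨_, rfl⟩
  have hδ0 : 0 < δ := by rw [hδ]; positivity
  have hδT : δ * (16 * C * κ * T) = 1 := by rw [hδ]; field_simp
  have hCδ : C * δ * κ * T = 1 / 16 := by linarith
  have hκT1 : 1 ≤ κ * T := one_le_mul_of_one_le_of_one_le hκ1 hT1
  have hδ1 : δ ≤ 1 / C := by
    rw [le_div_iff₀ hC0]
    have h5 : C * δ ≤ C * δ * (κ * T) := le_mul_of_one_le_right (by positivity) hκT1
    linarith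
  have hinv : 1 / δ = 16 * C * κ * T := by rw [hδ]; field_simp
  have hyδ : C / (y : ℝ) ≤ δ := by
    have h4 : C * (1 / δ) ≤ y := by
      rw [hinv]
      have h5 : C * (16 * C * κ * T) ≤ 32 * C ^ 2 * κ * Real.log L := by
        have h6 : 16 * C ^ 2 * κ * T ≤ 16 * C ^ 2 * κ * (2 * Real.log L) :=
          mul_le_mul_of_nonneg_left hT2 (by positivity)
        calc C * (16 * C * κ * T) = 16 * C ^ 2 * κ * T := by ring
          _ ≤ 16 * C ^ 2 * κ * (2 * Real.log L) := h6
          _ = 32 * C ^ 2 * κ * Real.log L := by ring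
      linarith
    rw [div_le_iff₀ (by linarith)]
    rw [mul_one_div, div_le_iff₀ hδ0] at h4
    linarith
  have hmain := h1 Q U y δ K w' (by omega) hyQ hδ0 hδ1 hyδ hmp
    (fun z hz1 hz2 => (h3 z Q (by omega) hz2).1)
  rw [← hD, ← hM, hzero, ← hκ] at hmain
  -- the main term
  have hexp : Real.log y ^ k / (K ^ k * L ^ k) * Real.exp (-1) ≤ Real.exp (-((1 + C * δ) * (κ * D))) := by
    have h4 : -((1 + C * δ) * (κ * D)) = k * (-D) + -(C * δ * κ * D) := by rw [hκ]; ring
    rw [h4, Real.exp_add, Real.exp_nat_mul]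
    have h6 : C * δ * κ * D ≤ 1 := by
      have h7 : C * δ * κ * D ≤ C * δ * κ * T := mul_le_mul_of_nonneg_left hDT (by positivity)
      linarith
    refine mul_le_mul ?_ (Real.exp_le_exp.2 (by linarith)) (Real.exp_pos _).le
      (pow_nonneg (Real.exp_pos _).le _)
    have h5 : Real.log y / L ≤ K * Real.exp (-D) := by rw [hL]; exact m2
    have h7 : Real.log y / (K * L) ≤ Real.exp (-D) := by
      rw [div_le_iff₀ (by positivity)]
      rw [div_le_iff₀ hL0] at h5
      linarith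
    calc Real.log y ^ k / (K ^ k * L ^ k) = (Real.log y / (K * L)) ^ k := by
          rw [div_pow, mul_pow]
      _ ≤ Real.exp (-D) ^ k := pow_le_pow_left₀ (by positivity) h7 k
  have hMT : c / (Real.exp 1 * K ^ k) * (U / L ^ k) * M ≤
      Real.exp (-((1 + C * δ) * (κ * D))) * mP Q (fun n => max (ws Q w' n) 0 * ((SH H U y n).card : ℝ)) := by
    calc c / (Real.exp 1 * K ^ k) * (U / L ^ k) * M
        = (Real.log y ^ k / (K ^ k * L ^ k) * Real.exp (-1)) * (c * (U / Real.log y ^ k) * M) := by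
          rw [Real.exp_neg]
          field_simp
      _ ≤ Real.exp (-((1 + C * δ) * (κ * D))) * mP Q (fun n => max (ws Q w' n) 0 * ((SH H U y n).card : ℝ)) :=
          mul_le_mul hexp hm (by positivity) (Real.exp_pos _).le
  -- the error
  have hE : (D / δ + 1) * ((U / y + 1) * (C * K / δ ^ 2)) ≤
      c / (2 * Real.exp 1 * K ^ k) * (U / L ^ k) := by
    have f1 : D / δ + 1 ≤ 17 * C * κ * T ^ 2 := by
      have g1 : D / δ ≤ T / δ := div_le_div_of_nonneg_right hDT hδ0.le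
      have g2 : T / δ = 16 * C * κ * T ^ 2 := by
        rw [div_eq_mul_one_div, hinv]
        ring
      have g3 : 1 ≤ C * (κ * T ^ 2) := one_le_mul_of_one_le_of_one_le hC
        (one_le_mul_of_one_le_of_one_le hκ1 (one_le_pow₀ hT1))
      linarith
    have f2 : (U : ℝ) / y + 1 ≤ 2 * (U / L ^ (k + 2)) := by
      have g1 : (U : ℝ) / y ≤ U / L ^ (k + 2) := div_le_div_of_nonneg_left hU0 (by positivity) hy1
      have g2 : 1 ≤ (U : ℝ) / L ^ (k + 2) := by
        rw [le_div_iff₀ (by positivity), one_mul]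
        exact hU2
      linarith
    have f3 : C * K / δ ^ 2 = 256 * C ^ 3 * κ ^ 2 * K * T ^ 2 := by
      rw [div_eq_mul_one_div, ← one_div_pow, hinv]
      ring
    have f4 : (0 : ℝ) ≤ D / δ + 1 := by positivity
    have f6 : L ^ (k + 2) = L ^ k * L ^ 2 := pow_add L k 2
    rw [f3]
    calc (D / δ + 1) * ((U / y + 1) * (256 * C ^ 3 * κ ^ 2 * K * T ^ 2))
        ≤ (17 * C * κ * T ^ 2) * ((2 * (U / L ^ (k + 2))) * (256 * C ^ 3 * κ ^ 2 * K * T ^ 2)) := by
          refine mul_le_mul f1 ?_ (by positivity) (by positivity)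
          exact mul_le_mul_of_nonneg_right f2 (by positivity)
      _ = (A * T ^ 4) * (c / (2 * Real.exp 1 * K ^ k) * (U / (L ^ k * L ^ 2))) := by
          rw [hA, f6, pow_succ K k]
          field_simp
          ring
      _ ≤ L ^ 2 * (c / (2 * Real.exp 1 * K ^ k) * (U / (L ^ k * L ^ 2))) :=
          mul_le_mul_of_nonneg_right hAT (by positivity)
      _ = _ := by
          field_simp
  have hE2 := mul_le_mul_of_nonneg_right hE hM0.le
  have hfin : c / (2 * Real.exp 1 * K ^ k) * (U / L ^ k) * M =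
      c / (Real.exp 1 * K ^ k) * (U / L ^ k) * M - c / (2 * Real.exp 1 * K ^ k) * (U / L ^ k) * M := by
    field_simp
    ring
  have hlast : 0 < c / (2 * Real.exp 1 * K ^ k) * (U / L ^ k) * M := by positivity
  rw [hfin] at hE2
  linarith

end Pool.Agent.N422.KT
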