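import Pool.Agent.N422.KT.Stm
import Pool.Agent.N422.LR.HX

/-! Project KT (helper422), part HX: one window for a real function, tuples, by helper323, after helper394's file LR/HX. -/

set_option autoImplicit false

open Finset

namespace Pool.Agent.N422.KT

open Pool.Agent.N422.NW Pool.Agent.N422.SL Pool.Agent.N422.WS Pool.Agent.N422.LG Pool.Agent.N422.LR

/-- the sites not hit -/
def HX_lf (H P T : Finset ℕ) (x : ℕ) : Finset ℕ := T.filter (fun h => ∀ p ∈ P, ∀ g ∈ H, ¬ p ∣ x + h + g)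

theorem HX_mod {D a b : ℕ} (h : a % D = b % D) (h1 : a < b + D) (h2 : b < a + D) : a = b := by
  rcases le_total a b with hle | hle
  · have h3 := (Nat.modEq_iff_dvd' hle).1 h
    have h4 := Nat.eq_zero_of_dvd_of_lt h3 (by omega)
    omega
  · have h3 := (Nat.modEq_iff_dvd' hle).1 h.symm
    have h4 := Nat.eq_zero_of_dvd_of_lt h3 (by omega)
    omega

/-- every site is hit by exactly `H.card` classes -/
theorem HX_kap_classes {q h D : ℕ} (H : Finset ℕ) (hq : 0 < q) (hH : ∀ g ∈ H, ∀ g' ∈ H, g < g' + D) (hD : D ≤ q) :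
    (univ.filter (fun u : Fin q => ∃ g ∈ H, q ∣ (u : ℕ) + h + g)).card = H.card := by
  classical
  have e : (univ.filter (fun u : Fin q => ∃ g ∈ H, q ∣ (u : ℕ) + h + g)) =
      H.biUnion (fun g => univ.filter (fun u : Fin q => q ∣ (u : ℕ) + (h + g))) := by
    ext u
    simp only [mem_filter, mem_biUnion, mem_univ, true_and, add_assoc]
  rw [e, card_biUnion]
  · rw [sum_congr rfl fun g _ => HX_one_class hq]
    simp
  · intro g hg g' hg' hne
    rw [Function.onFun, Finset.disjoint_left]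
    intro u hu hu'
    rw [mem_filter] at hu hu'
    apply hne
    have h1 : (u : ℕ) + (h + g) ≡ (u : ℕ) + (h + g') [MOD q] :=
      (Nat.modEq_zero_iff_dvd.2 hu.2).trans (Nat.modEq_zero_iff_dvd.2 hu'.2).symm
    have h2 : g ≡ g' [MOD q] := Nat.ModEq.add_left_cancel' h (Nat.ModEq.add_left_cancel' (u : ℕ) h1)
    have h3 := hH g hg g' hg'
    have h4 := hH g' hg' g hg
    exact HX_mod h2 (by omega) (by omega)

open Classical in
/-- one residue class modulo `R`, one block of sites -/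
theorem HX_on (hWX : Pool.Agent.N422.KT.S_WX) (Q R r m n b z D : ℕ) (l : ℝ) (H P T : Finset ℕ) (ν : ℕ → ℕ)
    (c : ℕ → ℕ → ℝ)
    (hP : ∀ p ∈ P, p.Prime ∧ z < p ∧ ¬ p ∣ R) (hQR : ∀ p : ℕ, p.Prime → p ≤ Q → p ∈ P ∨ p ∣ R)
    (hz : 2 ≤ z) (hb : 2 * (H.card * b) ≤ z) (hT : T.card ≤ b) (hH : ∀ g ∈ H, ∀ g' ∈ H, g < g' + D)
    (hbD : b + D ≤ z) (hT2 : ∀ h ∈ T, ∀ h' ∈ T, h' < h + b) (hT3 : ∀ h ∈ T, ∀ h' ∈ T, h % D = h' % D)
    (hν : ∀ p ∈ P, m ≤ ν p) (hm : 0 < m)
    (hlev : ∀ d, 1 ≤ d → d ≤ Q → ∑ p ∈ P.filter (fun p => p ∣ d), ν p ≤ n) (hl : 0 < l) (hl2 : l ≤ 1 / 16) :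
    ∑ t ∈ range (∏ p ∈ P, p), max (ws Q c (r + R * t)) 0 *
        ((T.card : ℝ) - ((HX_lf H P T (r + R * t)).card : ℝ)) ≤
      (1 + 11 * l + 2 * ((H.card * b : ℝ) / z)) * (H.card * ∑ p ∈ P, 1 / (p : ℝ)) *
        (T.card * ∑ t ∈ range (∏ p ∈ P, p), max (ws Q c (r + R * t)) 0) +
      (((n : ℝ) / m) * (∑ t ∈ range (∏ p ∈ P, p), max (ws Q c (r + R * t)) 0) +
        ∑ t ∈ range (∏ p ∈ P, p), max (-ws Q c (r + R * t)) 0) / l := by
  set q : Fin P.card → ℕ := fun i => P.equivFin.symm i with hq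
  have hqP : ∀ i, q i ∈ P := fun i => (P.equivFin.symm i).2
  have hinj : Function.Injective q := Subtype.val_injective.comp P.equivFin.symm.injective
  set hs : Fin T.card → ℕ := fun a => T.equivFin.symm a with hhs
  have hsT : ∀ a, hs a ∈ T := fun a => (T.equivFin.symm a).2
  have hsinj : Function.Injective hs := Subtype.val_injective.comp T.equivFin.symm.injective
  have hqp : ∀ i, (q i).Prime := fun i => (hP _ (hqP i)).1
  have hqz : ∀ i, z < q i := fun i => (hP _ (hqP i)).2.1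
  have hbij := HX_bij q hqp hinj R r (fun i => (hP _ (hqP i)).2.2)
  set E : Fin (∏ i, q i) ≃ Xs q := Equiv.ofBijective _ hbij with hE
  have hEi : ∀ t i, ((E t i : Fin (q i)) : ℕ) = (r + R * (t : ℕ)) % q i := fun t i => rfl
  have hEs : ∀ x i, ((x i : Fin (q i)) : ℕ) = (r + R * ((E.symm x : Fin (∏ i, q i)) : ℕ)) % q i := by
    intro x i
    rw [← hEi, E.apply_symm_apply]
  set f : Xs q → ℝ := fun x => ws Q c (r + R * ((E.symm x : Fin (∏ i, q i)) : ℕ)) with hf
  set σ : (i : Fin P.card) → Fin (q i) → Option (Fin T.card) := fun i u =>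
    if h : ∃ a, ∃ g ∈ H, q i ∣ (u : ℕ) + hs a + g then some h.choose else none with hσ
  have hσ1 : ∀ i u a, σ i u = some a ↔ ∃ g ∈ H, q i ∣ (u : ℕ) + hs a + g := by
    intro i u a
    have huniq : ∀ a a', (∃ g ∈ H, q i ∣ (u : ℕ) + hs a + g) → (∃ g ∈ H, q i ∣ (u : ℕ) + hs a' + g) → a = a' := by
      rintro a a' ⟨g, hg, ha⟩ ⟨g', hg', ha'⟩
      apply hsinj
      have e1 := hT2 _ (hsT a) _ (hsT a')
      have e2 := hT2 _ (hsT a') _ (hsT a)
      have e3 := hH g hg g' hg'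
      have e4 := hH g' hg' g hg
      have e5 := hqz i
      have e6 : (u : ℕ) + hs a + g = (u : ℕ) + hs a' + g' :=
        HX_mod (D := q i) (((Nat.modEq_zero_iff_dvd.2 ha).trans (Nat.modEq_zero_iff_dvd.2 ha').symm))
          (by omega) (by omega)
      exact HX_mod (D := D) (hT3 _ (hsT a) _ (hsT a')) (by omega) (by omega)
    by_cases hex : ∃ a, ∃ g ∈ H, q i ∣ (u : ℕ) + hs a + g
    · have e : σ i u = some hex.choose := by
        simp only [hσ]
        rw [dif_pos hex]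
      rw [e, Option.some.injEq]
      constructor
      · intro h
        rw [← h]
        exact hex.choose_spec
      · intro h
        exact huniq _ _ hex.choose_spec h
    · have e : σ i u = none := by
        simp only [hσ]
        rw [dif_neg hex]
      rw [e]
      constructor
      · intro h
        exact absurd h (by simp)
      · intro h
        exact absurd ⟨a, h⟩ hex
  have hOne : Kap H.card σ := by
    intro i a
    have e : (univ.filter (fun u : Fin (q i) => σ i u = some a)) =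
        univ.filter (fun u : Fin (q i) => ∃ g ∈ H, q i ∣ (u : ℕ) + hs a + g) := by
      ext u
      rw [mem_filter, mem_filter, hσ1]
    rw [e]
    exact HX_kap_classes H (hqp i).pos hH (by have := hqz i; omega)
  have hzR : (0 : ℝ) < z := by
    have : 0 < z := by omega
    exact_mod_cast this
  have hLev : LevX (fun i => ν (q i)) n f := by
    set D : Finset ℕ := (Icc 1 Q).filter Squarefree with hD
    refine ⟨D.card, fun j => univ.filter (fun i => q i ∣ (D.equivFin.symm j : ℕ)),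
      fun j x => c (D.equivFin.symm j : ℕ) ((r + R * ((E.symm x : Fin (∏ i, q i)) : ℕ)) %
        (D.equivFin.symm j : ℕ)), ?_, ?_, ?_⟩
    · intro j
      have hj := (mem_filter.1 (D.equivFin.symm j).2).1
      rw [mem_Icc] at hj
      refine le_trans ?_ (hlev _ hj.1 hj.2)
      rw [Finset.sum_filter, Finset.sum_filter]
      exact le_of_eq (HX_sum P (fun p => if p ∣ (D.equivFin.symm j : ℕ) then ν p else 0))
    · intro j x x' hxx
      have hj := mem_filter.1 (D.equivFin.symm j).2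
      have hj1 := mem_Icc.1 hj.1
      show c (D.equivFin.symm j : ℕ) ((r + R * ((E.symm x : Fin (∏ i, q i)) : ℕ)) % (D.equivFin.symm j : ℕ)) =
        c (D.equivFin.symm j : ℕ) ((r + R * ((E.symm x' : Fin (∏ i, q i)) : ℕ)) % (D.equivFin.symm j : ℕ))
      congr 1
      refine HX_dep Q R r _ _ _ P hQR hj.2 hj1.2 ?_
      intro p hp hpd
      have e1 : q (P.equivFin ⟨p, hp⟩) = p := by simp [hq]
      have e2 := hEs x (P.equivFin ⟨p, hp⟩)
      have e3 := hEs x' (P.equivFin ⟨p, hp⟩)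
      have e4 := hxx (P.equivFin ⟨p, hp⟩) (mem_filter.2 ⟨mem_univ _, by rw [e1]; exact hpd⟩)
      rw [e4] at e2
      rw [e2] at e3
      rw [e1] at e3
      exact e3
    · intro x
      show ws Q c (r + R * ((E.symm x : Fin (∏ i, q i)) : ℕ)) = _
      unfold ws
      exact (HX_sum D (fun d => c d ((r + R * ((E.symm x : Fin (∏ i, q i)) : ℕ)) % d))).symm
  have hHT : H.card * T.card ≤ H.card * b := Nat.mul_le_mul_left _ hT
  have h4 := hWX P.card T.card H.card m n q σ (fun i => ν (q i)) f l ((H.card * b : ℝ) / z) hm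
    (fun i => ⟨by have := hqz i; omega, (hqp i).pos⟩)
    (fun i => by
      have h5 := hqz i
      have h6 : (z : ℝ) ≤ q i := by exact_mod_cast h5.le
      have h7 : (H.card * T.card : ℝ) ≤ H.card * b := by exact_mod_cast hHT
      have h8 : (0 : ℝ) < q i := lt_of_lt_of_le hzR h6
      exact div_le_div₀ (by positivity) h7 hzR h6)
    (by positivity) hOne (fun i => hν _ (hqP i)) hLev hl hl2
  have hfE : ∀ t, f (E t) = ws Q c (r + R * (t : ℕ)) := by
    intro t
    simp only [hf]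
    rw [E.symm_apply_apply]
  have hal : ∀ t, (al σ (E t) P.card).card = (HX_lf H P T (r + R * (t : ℕ))).card := by
    intro t
    refine Finset.card_bij (fun a _ => hs a) ?_ ?_ ?_
    · intro a ha
      rw [al, mem_filter] at ha
      refine mem_filter.2 ⟨hsT a, ?_⟩
      intro p hp g hg hdv
      have e1 : q (P.equivFin ⟨p, hp⟩) = p := by simp [hq]
      refine ha.2 (P.equivFin ⟨p, hp⟩) (P.equivFin ⟨p, hp⟩).2 ((hσ1 _ _ _).2 ⟨g, hg, ?_⟩)
      rw [hEi, e1]
      exact (((Nat.mod_modEq (r + R * (t : ℕ)) p).add_right (hs a)).add_right g).dvd_iff dvd_rfl |>.2 hdv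
    · intro a _ a' _ h
      exact hsinj h
    · intro h hh
      rw [HX_lf, mem_filter] at hh
      refine ⟨T.equivFin ⟨h, hh.1⟩, ?_, by simp [hhs]⟩
      rw [al, mem_filter]
      refine ⟨mem_univ _, fun i _ hcon => ?_⟩
      rw [hσ1] at hcon
      obtain ⟨g, hg, hcon⟩ := hcon
      rw [hEi] at hcon
      have e2 : hs (T.equivFin ⟨h, hh.1⟩) = h := by simp [hhs]
      rw [e2] at hcon
      exact hh.2 (q i) (hqP i) g hg
        ((((Nat.mod_modEq (r + R * (t : ℕ)) (q i)).add_right h).add_right g).dvd_iff dvd_rfl |>.1 hcon)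
  have hK : ∏ i, q i = ∏ p ∈ P, p := HX_prod P (fun p => p)
  have hsumE : ∀ G : Xs q → ℝ, ∑ x, G x = ∑ t, G (E t) := fun G => (Equiv.sum_comp E G).symm
  rw [hsumE, hsumE, hsumE] at h4
  simp only [hfE, hal] at h4
  have hran : ∀ G : ℕ → ℝ, ∑ t : Fin (∏ i, q i), G (t : ℕ) = ∑ t ∈ range (∏ p ∈ P, p), G t := by
    intro G
    rw [Fin.sum_univ_eq_sum_range G (∏ i, q i), hK]
  have e1 : ∑ i, 1 / (q i : ℝ) = ∑ p ∈ P, 1 / (p : ℝ) := HX_sum P (fun p => 1 / (p : ℝ))
  rw [e1, hran (fun t => max (ws Q c (r + R * t)) 0 *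
      ((T.card : ℝ) - ((HX_lf H P T (r + R * t)).card : ℝ))), hran (fun t => max (ws Q c (r + R * t)) 0),
    hran (fun t => max (-ws Q c (r + R * t)) 0)] at h4
  exact h4

/-- the blocks -/
def HX_bk (s : Finset ℕ) (b D : ℕ) (j : ℕ × ℕ) : Finset ℕ := (HX_blk s b j.1).filter (fun h => h % D = j.2)

theorem HX_spl (s : Finset ℕ) (U b D : ℕ) (hD : 0 < D) (hs : s ⊆ Icc 1 U) (φ : ℕ → ℝ) :
    ∑ j ∈ range (U / b + 1) ×ˢ range D, ∑ h ∈ HX_bk s b D j, φ h = ∑ h ∈ s, φ h := by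
  rw [← HX_split s U b hs, sum_product]
  refine sum_congr rfl fun j _ => ?_
  have h1 := Finset.sum_fiberwise_of_maps_to (s := HX_blk s b j) (t := range D) (g := fun h => h % D)
    (fun h _ => mem_range.2 (Nat.mod_lt h hD)) φ
  rw [← h1]
  rfl

/-- one residue class modulo `R` -/
theorem HX_cl (hWX : Pool.Agent.N422.KT.S_WX) (Q R r m n b z U D : ℕ) (l : ℝ) (H P s : Finset ℕ) (ν : ℕ → ℕ)
    (c : ℕ → ℕ → ℝ)
    (hP : ∀ p ∈ P, p.Prime ∧ z < p ∧ ¬ p ∣ R) (hQR : ∀ p : ℕ, p.Prime → p ≤ Q → p ∈ P ∨ p ∣ R)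
    (hz : 2 ≤ z) (hb0 : 0 < b) (hb : 2 * (H.card * b) ≤ z) (hs : s ⊆ Icc 1 U) (hD : 0 < D)
    (hH : ∀ g ∈ H, ∀ g' ∈ H, g < g' + D) (hbD : b + D ≤ z)
    (hν : ∀ p ∈ P, m ≤ ν p) (hm : 0 < m)
    (hlev : ∀ d, 1 ≤ d → d ≤ Q → ∑ p ∈ P.filter (fun p => p ∣ d), ν p ≤ n) (hl : 0 < l) (hl2 : l ≤ 1 / 16) :
    ∑ t ∈ range (∏ p ∈ P, p), max (ws Q c (r + R * t)) 0 *
        ((s.card : ℝ) - ((HX_lf H P s (r + R * t)).card : ℝ)) ≤
      (1 + 11 * l + 2 * ((H.card * b : ℝ) / z)) * (H.card * ∑ p ∈ P, 1 / (p : ℝ)) *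
        (s.card * ∑ t ∈ range (∏ p ∈ P, p), max (ws Q c (r + R * t)) 0) +
      (((U / b + 1) * D : ℕ) : ℝ) * ((((n : ℝ) / m) * (∑ t ∈ range (∏ p ∈ P, p), max (ws Q c (r + R * t)) 0) +
        ∑ t ∈ range (∏ p ∈ P, p), max (-ws Q c (r + R * t)) 0) / l) := by
  have h3 := Finset.sum_le_sum (fun j (_ : j ∈ range (U / b + 1) ×ˢ range D) =>
    HX_on hWX Q R r m n b z D l H P (HX_bk s b D j) ν c hP hQR hz hb
      ((card_le_card (filter_subset _ _)).trans (HX_blk_card s b j.1 hb0)) hH hbD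
      (fun h hh h' hh' => by
        have e1 := (mem_filter.1 (mem_filter.1 hh).1).2
        have e2 := (mem_filter.1 (mem_filter.1 hh').1).2
        have e3 := Nat.div_add_mod h b
        have e4 := Nat.mod_lt h' hb0
        have e5 := Nat.div_add_mod h' b
        rw [e1] at e3
        rw [e2] at e5
        omega)
      (fun h hh h' hh' => ((mem_filter.1 hh).2).trans ((mem_filter.1 hh').2).symm)
      hν hm hlev hl hl2)
  rw [sum_comm, sum_add_distrib, ← mul_sum, ← sum_mul, sum_const, card_product, card_range, card_range,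
    nsmul_eq_mul] at h3
  have e1 : ∑ j ∈ range (U / b + 1) ×ˢ range D, ((HX_bk s b D j).card : ℝ) = s.card := by
    have := HX_spl s U b D hD hs (fun _ => 1)
    simpa using this
  have e2 : ∀ x : ℕ, ∑ j ∈ range (U / b + 1) ×ˢ range D, ((HX_lf H P (HX_bk s b D j) x).card : ℝ) =
      ((HX_lf H P s x).card : ℝ) := by
    intro x
    have h4 := HX_spl s U b D hD hs (fun h => if ∀ p ∈ P, ∀ g ∈ H, ¬ p ∣ x + h + g then 1 else 0)
    have h5 : ∀ t : Finset ℕ, ((HX_lf H P t x).card : ℝ) =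
        ∑ h ∈ t, (if ∀ p ∈ P, ∀ g ∈ H, ¬ p ∣ x + h + g then (1 : ℝ) else 0) := by
      intro t
      rw [← sum_filter, HX_lf]
      simp
    simp only [h5]
    exact h4
  rw [e1] at h3
  refine le_trans (le_of_eq ?_) h3
  refine sum_congr rfl fun t _ => ?_
  rw [← mul_sum, sum_sub_distrib, e1, e2]

theorem t_HX (h : Pool.Agent.N422.KT.S_WX) : Pool.Agent.N422.KT.S_HX := by
  intro H Q U z z' b D l c hz hzz hzQ hb1 hD hH hbD hb hl hl2
  have hzR : (1 : ℝ) < z := by exact_mod_cast (by omega : 1 < z)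
  have hlogz : 0 < Real.log z := Real.log_pos hzR
  have hQR1 : (z : ℝ) ≤ Q := by exact_mod_cast hzz.trans hzQ
  have hlogQ : Real.log z ≤ Real.log Q := Real.log_le_log (by linarith) hQR1
  have hlogQp : 0 < Real.log Q := hlogz.trans_le hlogQ
  have hlogQ0 : 0 ≤ Real.log Q := hlogQp.le
  set P : Finset ℕ := PQ z' z with hPdef
  have hPm : ∀ p, p ∈ P ↔ (1 ≤ p ∧ p ≤ z') ∧ p.Prime ∧ z < p := by
    intro p
    rw [hPdef, PQ, mem_filter, mem_Icc]
  set A : Finset ℕ := (Icc 1 Q).filter Nat.Prime with hA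
  have hPA : P ⊆ A := by
    intro p hp
    have h1 := (hPm p).1 hp
    rw [hA, mem_filter, mem_Icc]
    exact ⟨⟨h1.1.1, h1.1.2.trans hzQ⟩, h1.2.1⟩
  set R : ℕ := ∏ p ∈ A \ P, p with hR
  set K : ℕ := ∏ p ∈ P, p with hK
  have hM : PP Q = R * K := (Finset.prod_sdiff hPA).symm
  have hR0 : 0 < R := prod_pos fun p hp => (mem_filter.1 (mem_sdiff.1 hp).1).2.pos
  have hK0 : 0 < K := prod_pos fun p hp => ((hPm p).1 hp).2.1.pos
  have hP : ∀ p ∈ P, p.Prime ∧ z < p ∧ ¬ p ∣ R := by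
    intro p hp
    have h1 := (hPm p).1 hp
    refine ⟨h1.2.1, h1.2.2, fun hdv => ?_⟩
    obtain ⟨q', hq', h2⟩ := (Prime.dvd_finsetProd_iff h1.2.1.prime _).1 hdv
    have h3 := mem_sdiff.1 hq'
    have h4 := (Nat.prime_dvd_prime_iff_eq h1.2.1 (mem_filter.1 h3.1).2).1 h2
    rw [← h4] at h3
    exact h3.2 hp
  have hQR : ∀ p : ℕ, p.Prime → p ≤ Q → p ∈ P ∨ p ∣ R := by
    intro p hpp hpQ
    by_cases hp : p ∈ P
    · exact Or.inl hp
    · refine Or.inr (Finset.dvd_prod_of_mem (fun p => p) (mem_sdiff.2 ⟨?_, hp⟩))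
      rw [hA, mem_filter, mem_Icc]
      exact ⟨⟨hpp.one_lt.le, hpQ⟩, hpp⟩
  have hsmall : ∀ p : ℕ, p.Prime → p ≤ z → p ∣ R := by
    intro p hpp hpz
    rcases hQR p hpp ((hpz.trans hzz).trans hzQ) with h1 | h1
    · have := ((hPm p).1 h1).2.2
      omega
    · exact h1
  -- the levels
  set La : ℝ := Real.log Q / Real.log z with hLa
  have hLa1 : 1 ≤ La := by
    rw [hLa, one_le_div hlogz]
    exact hlogQ
  obtain ⟨n, hn⟩ : ∃ n : ℕ, 2 * La ≤ n := exists_nat_ge _
  have hnpos : (0 : ℝ) < n := by linarith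
  set m : ℕ := ⌊(n : ℝ) / La⌋₊ with hm
  have hnL : 2 ≤ (n : ℝ) / La := by
    rw [le_div_iff₀ (by linarith)]
    exact hn
  have hm1 : (n : ℝ) / La - 1 < m := by
    have := Nat.lt_floor_add_one ((n : ℝ) / La)
    rw [← hm] at this
    linarith
  have hm2 : (n : ℝ) / La / 2 ≤ m := by linarith
  have hmpos : 0 < m := by
    have : (0 : ℝ) < m := by linarith
    exact_mod_cast this
  have hmR : (0 : ℝ) < m := by exact_mod_cast hmpos
  have hnm : (n : ℝ) / m ≤ 2 * La := by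
    rw [div_le_iff₀ hmR]
    have h3 : (n : ℝ) = 2 * La * ((n : ℝ) / La / 2) := by
      field_simp
    calc (n : ℝ) = 2 * La * ((n : ℝ) / La / 2) := h3
      _ ≤ 2 * La * m := mul_le_mul_of_nonneg_left hm2 (by linarith)
  set ν : ℕ → ℕ := fun p => ⌊(n : ℝ) * Real.log p / Real.log Q⌋₊ with hν
  have hνm : ∀ p ∈ P, m ≤ ν p := by
    intro p hp
    refine Nat.floor_le_floor ?_
    rw [hLa, div_div_eq_mul_div]
    refine div_le_div_of_nonneg_right ?_ hlogQ0
    refine mul_le_mul_of_nonneg_left ?_ hnpos.le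
    refine Real.log_le_log (by linarith) ?_
    exact_mod_cast (hP p hp).2.1.le
  have hlev : ∀ d, 1 ≤ d → d ≤ Q → ∑ p ∈ P.filter (fun p => p ∣ d), ν p ≤ n := by
    intro d hd1 hd2
    have h3 : ∏ p ∈ P.filter (fun p => p ∣ d), p ∣ d := by
      refine Finset.prod_primes_dvd d ?_ ?_
      · intro p hp
        exact (hP p (mem_filter.mp hp).1).1.prime
      · intro p hp
        exact (mem_filter.mp hp).2
    have h4 : ∏ p ∈ P.filter (fun p => p ∣ d), p ≤ Q := (Nat.le_of_dvd hd1 h3).trans hd2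
    have h5 : ∑ p ∈ P.filter (fun p => p ∣ d), Real.log p ≤ Real.log Q := by
      rw [← Real.log_prod (fun p hp => by
        have := (hP p (mem_filter.mp hp).1).1.pos
        positivity)]
      have h4' : ((∏ p ∈ P.filter (fun p => p ∣ d), p : ℕ) : ℝ) ≤ Q := Nat.cast_le.mpr h4
      rw [Nat.cast_prod] at h4'
      refine Real.log_le_log ?_ h4'
      refine prod_pos fun p hp => ?_
      have := (hP p (mem_filter.mp hp).1).1.pos
      positivity
    have h6 : ((∑ p ∈ P.filter (fun p => p ∣ d), ν p : ℕ) : ℝ) ≤ n := by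
      push_cast
      calc ∑ p ∈ P.filter (fun p => p ∣ d), ((ν p : ℕ) : ℝ)
          ≤ ∑ p ∈ P.filter (fun p => p ∣ d), (n : ℝ) * Real.log p / Real.log Q := by
            refine sum_le_sum fun p _ => ?_
            refine Nat.floor_le ?_
            have := Real.log_natCast_nonneg p
            positivity
        _ = n * (∑ p ∈ P.filter (fun p => p ∣ d), Real.log p) / Real.log Q := by
            rw [← sum_div, ← mul_sum]
        _ ≤ n * Real.log Q / Real.log Q := by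
            refine div_le_div_of_nonneg_right ?_ hlogQ0
            exact mul_le_mul_of_nonneg_left h5 hnpos.le
        _ = n := by field_simp
    exact_mod_cast h6
  -- the sites
  have hS1 : ∀ r t, SH H U z (r + R * t) = SH H U z r := by
    intro r t
    unfold SH
    refine filter_congr fun a _ => ?_
    refine forall₂_congr fun p hp => ?_
    refine forall₂_congr fun g _ => ?_
    have h1 := mem_filter.1 hp
    have h2 := mem_Icc.1 h1.1
    have h3 : p ∣ R * t := (hsmall p h1.2 h2.2).mul_right t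
    have e : r + R * t + a + g = R * t + (r + a + g) := by ring
    rw [e, Nat.dvd_add_right h3]
  have hS2 : ∀ r t, SH H U z' (r + R * t) = HX_lf H P (SH H U z r) (r + R * t) := by
    intro r t
    rw [← hS1 r t]
    unfold HX_lf SH
    rw [filter_filter]
    refine filter_congr fun a _ => ?_
    constructor
    · intro h1
      refine ⟨fun p hp => ?_, fun p hp => ?_⟩
      · have h2 := mem_filter.1 hp
        have h3 := mem_Icc.1 h2.1
        exact h1 p (mem_filter.2 ⟨mem_Icc.2 ⟨h3.1, h3.2.trans hzz⟩, h2.2⟩)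
      · have h2 := (hPm p).1 hp
        exact h1 p (mem_filter.2 ⟨mem_Icc.2 h2.1, h2.2.1⟩)
    · rintro ⟨h1, h2⟩ p hp
      have h3 := mem_filter.1 hp
      have h4 := mem_Icc.1 h3.1
      rcases le_or_gt p z with h5 | h5
      · exact h1 p (mem_filter.2 ⟨mem_Icc.2 ⟨h4.1, h5⟩, h3.2⟩)
      · exact h2 p ((hPm p).2 ⟨h4, h3.2, h5⟩)
  have hMR : (0 : ℝ) < PP Q := by
    rw [hM]
    exact_mod_cast Nat.mul_pos hR0 hK0
  have hmP : ∀ G : ℕ → ℝ, mP Q G * (PP Q : ℝ) = ∑ r ∈ range R, ∑ t ∈ range K, G (r + R * t) := by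
    intro G
    unfold mP
    rw [div_mul_cancel₀ _ hMR.ne', hM, HX_range R K hR0]
  have h3 := sum_le_sum fun r (_ : r ∈ range R) =>
    HX_cl h Q R r m n b z U D l H P (SH H U z r) ν c hP hQR hz (by omega) hb (filter_subset _ _) hD hH hbD hνm
      hmpos hlev hl hl2
  have e1 : ∑ r ∈ range R, ∑ t ∈ range K, max (ws Q c (r + R * t)) 0 *
        (((SH H U z r).card : ℝ) - ((HX_lf H P (SH H U z r) (r + R * t)).card : ℝ)) =
      (mP Q (fun n => max (ws Q c n) 0 * ((SH H U z n).card : ℝ)) -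
        mP Q (fun n => max (ws Q c n) 0 * ((SH H U z' n).card : ℝ))) * PP Q := by
    rw [sub_mul, hmP, hmP, ← sum_sub_distrib]
    refine sum_congr rfl fun r _ => ?_
    rw [← sum_sub_distrib]
    refine sum_congr rfl fun t _ => ?_
    rw [hS1, hS2]
    ring
  have e2 : ∑ r ∈ range R, ((SH H U z r).card : ℝ) * ∑ t ∈ range K, max (ws Q c (r + R * t)) 0 =
      mP Q (fun n => max (ws Q c n) 0 * ((SH H U z n).card : ℝ)) * PP Q := by
    rw [hmP]
    refine sum_congr rfl fun r _ => ?_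
    rw [mul_sum]
    refine sum_congr rfl fun t _ => ?_
    rw [hS1]
    ring
  have e3 : ∑ r ∈ range R, ∑ t ∈ range K, max (ws Q c (r + R * t)) 0 =
      mP Q (fun n => max (ws Q c n) 0) * PP Q := by
    rw [hmP]
  have e4 : ∑ r ∈ range R, ∑ t ∈ range K, max (-ws Q c (r + R * t)) 0 =
      mP Q (fun n => max (-ws Q c n) 0) * PP Q := by
    rw [hmP]
  rw [e1, sum_add_distrib, ← mul_sum, e2, ← mul_sum, ← sum_div, sum_add_distrib, ← mul_sum, e3, e4] at h3
  have hW : 0 ≤ mP Q (fun n => max (ws Q c n) 0) :=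
    div_nonneg (sum_nonneg fun _ _ => le_max_right _ _) (Nat.cast_nonneg _)
  have hV : 0 ≤ mP Q (fun n => max (-ws Q c n) 0) :=
    div_nonneg (sum_nonneg fun _ _ => le_max_right _ _) (Nat.cast_nonneg _)
  have hJR : (((U / b + 1) * D : ℕ) : ℝ) ≤ ((U : ℝ) / b + 1) * D := by
    push_cast
    have := Nat.cast_div_le (α := ℝ) (m := U) (n := b)
    exact mul_le_mul_of_nonneg_right (by linarith) (Nat.cast_nonneg D)
  have h5 : mP Q (fun n => max (ws Q c n) 0 * ((SH H U z n).card : ℝ)) -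
        mP Q (fun n => max (ws Q c n) 0 * ((SH H U z' n).card : ℝ)) ≤
      (1 + 11 * l + 2 * ((H.card * b : ℝ) / z)) * (H.card * ∑ p ∈ P, 1 / (p : ℝ)) *
        mP Q (fun n => max (ws Q c n) 0 * ((SH H U z n).card : ℝ)) +
      (((U / b + 1) * D : ℕ) : ℝ) * (((n : ℝ) / m * mP Q (fun n => max (ws Q c n) 0) +
        mP Q (fun n => max (-ws Q c n) 0)) / l) := by
    refine le_of_mul_le_mul_right ?_ hMR
    refine h3.trans (le_of_eq ?_)
    ring
  refine h5.trans ?_
  refine add_le_add le_rfl ?_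
  refine mul_le_mul hJR ?_ (by positivity) (by positivity)
  refine div_le_div_of_nonneg_right ?_ hl.le
  exact add_le_add (mul_le_mul_of_nonneg_right hnm hW) le_rfl

end Pool.Agent.N422.KT
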