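import Pool.Agent.N422.KT.Stm
import Pool.Agent.N422.LG.MERB
import Pool.Agent.R490.P3a

set_option autoImplicit false
set_option linter.unusedVariables false

namespace Pool.Agent.N422.KT

open Finset
open Pool.Agent.H373R2.T7

/-- the condition: `p` divides one of the `m + n + g` -/
def LOW_Q (H : Finset ℕ) (n : ℕ) (p m : ℕ) : Prop := ∃ g ∈ H, p ∣ m + n + g

lemma LOW_nu1 (H : Finset ℕ) (n p : ℕ) : nuB (LOW_Q H n) p ≤ H.card := by
  classical
  unfold nuB
  have h : ∀ r ∈ (range p).filter (fun r => LOW_Q H n p r), ∃ g ∈ H, p ∣ r + n + g :=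
    fun r hr => (mem_filter.1 hr).2
  choose! f hf using h
  refine card_le_card_of_injOn f (fun r hr => (hf r hr).1) ?_
  intro r hr r' hr' hrr
  have h1 := (hf r hr).2
  have h2 := (hf r' hr').2
  rw [hrr] at h1
  have h3 : r + n + f r' ≡ r' + n + f r' [MOD p] :=
    ((Nat.modEq_zero_iff_dvd).2 h1).trans ((Nat.modEq_zero_iff_dvd).2 h2).symm
  have h4 := Nat.ModEq.add_right_cancel' _ (Nat.ModEq.add_right_cancel' _ h3)
  exact Nat.ModEq.eq_of_lt_of_lt h4 (mem_range.1 (mem_filter.1 hr).1)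
    (mem_range.1 (mem_filter.1 hr').1)

lemma LOW_nu2 {H : Finset ℕ} (hH : Adm H) (n : ℕ) {p : ℕ} (hp : p.Prime) :
    nuB (LOW_Q H n) p + 1 ≤ p := by
  classical
  obtain ⟨a, ha⟩ := hH p hp
  unfold nuB
  have hp0 : 0 < p := hp.pos
  have hnp : n % p < p := Nat.mod_lt _ hp0
  have h1 : (a + (p - n % p)) % p ∉ (range p).filter (fun r => LOW_Q H n p r) := by
    intro h
    obtain ⟨g, hg, h2⟩ := (mem_filter.1 h).2
    apply ha g hg
    have h3 : (a + (p - n % p)) % p + n ≡ a [MOD p] := by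
      have e1 : (a + (p - n % p)) % p + n ≡ a + (p - n % p) + n % p [MOD p] :=
        Nat.ModEq.add (Nat.mod_modEq _ _) (Nat.mod_modEq _ _).symm
      have e2 : a + (p - n % p) + n % p = a + p := by omega
      rw [e2] at e1
      exact e1.trans (by simp [Nat.ModEq])
    have h4 : (a + (p - n % p)) % p + n + g ≡ a + g [MOD p] := Nat.ModEq.add_right g h3
    exact (Nat.modEq_zero_iff_dvd).1 (h4.symm.trans ((Nat.modEq_zero_iff_dvd).2 h2))
  have h2 : insert ((a + (p - n % p)) % p) ((range p).filter (fun r => LOW_Q H n p r)) ⊆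
      range p := by
    intro x hx
    rcases mem_insert.1 hx with rfl | hx
    · exact mem_range.2 (Nat.mod_lt _ hp0)
    · exact (mem_filter.1 hx).1
  have h3 := card_le_card h2
  rw [card_insert_of_notMem h1, card_range] at h3
  exact h3

lemma LOW_per (H : Finset ℕ) (n : ℕ) : PerB (LOW_Q H n) H.card where
  per := by
    intro p m
    unfold LOW_Q
    refine exists_congr fun g => and_congr_right fun _ => ?_
    have h : m + n + g ≡ m % p + n + g [MOD p] :=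
      Nat.ModEq.add_right _ (Nat.ModEq.add_right _ (Nat.mod_modEq m p).symm)
    exact h.dvd_iff dvd_rfl
  few := fun p _ => LOW_nu1 H n p

lemma LOW_exp {x : ℝ} (hx : 0 ≤ x) (hx2 : x ≤ 1 / 2) : Real.exp (-(x + 2 * x ^ 2)) ≤ 1 - x := by
  have h1 : 0 < 1 - x := by linarith
  have h2 := Real.add_one_le_exp (x / (1 - x))
  have h3 : x / (1 - x) + 1 = (1 - x)⁻¹ := by
    field_simp
    ring
  rw [h3] at h2
  have h4 : x / (1 - x) ≤ x + 2 * x ^ 2 := by
    rw [div_le_iff₀ h1]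
    nlinarith [mul_nonneg (sq_nonneg x) (by linarith : (0 : ℝ) ≤ 1 - 2 * x)]
  have h5 : (1 - x)⁻¹ ≤ Real.exp (x + 2 * x ^ 2) := h2.trans (Real.exp_le_exp.2 h4)
  rw [Real.exp_neg]
  exact inv_le_of_inv_le₀ h1 h5

lemma LOW_sq (y : ℕ) : ∑ p ∈ pz y, 1 / (p : ℝ) ^ 2 ≤ 1 := by
  rcases Nat.lt_or_ge y 1 with hy | hy
  · have : pz y = ∅ := by
      rw [eq_empty_iff_forall_notMem]
      intro p hp
      have := (mem_pz.1 hp).1
      have := (mem_pz.1 hp).2.pos
      omega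
    rw [this, sum_empty]
    exact zero_le_one
  · have h1 : pz y ⊆ Ioc 1 y := by
      intro p hp
      rw [mem_Ioc]
      exact ⟨(mem_pz.1 hp).2.one_lt, (mem_pz.1 hp).1⟩
    have h2 := sum_Ioc_inv_sq_le_sub (α := ℝ) (k := 1) (n := y) one_ne_zero hy
    calc ∑ p ∈ pz y, 1 / (p : ℝ) ^ 2 ≤ ∑ p ∈ Ioc 1 y, 1 / (p : ℝ) ^ 2 :=
          sum_le_sum_of_subset_of_nonneg h1 fun _ _ _ => by positivity
      _ = ∑ p ∈ Ioc 1 y, ((p : ℝ) ^ 2)⁻¹ := sum_congr rfl fun _ _ => one_div _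
      _ ≤ ((1 : ℕ) : ℝ)⁻¹ - (y : ℝ)⁻¹ := h2
      _ ≤ 1 := by
          have : (0 : ℝ) ≤ (y : ℝ)⁻¹ := by positivity
          rw [Nat.cast_one, inv_one]
          linarith

/-- the product -/
lemma LOW_prod {H : Finset ℕ} (hH : Adm H) : ∃ c : ℝ, 0 < c ∧ ∀ y : ℕ, 3 ≤ y → ∀ n : ℕ,
    c / Real.log y ^ H.card ≤ ∏ p ∈ pz y, (1 - (nuB (LOW_Q H n) p : ℝ) / p) := by
  classical
  obtain ⟨C, hC, hM⟩ := Pool.Agent.N422.LG.t_MERB
  set k : ℕ := H.card with hk
  set D : ℝ := ∏ p ∈ pz (2 * k), (1 / (p : ℝ)) with hD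
  have hD0 : 0 < D := prod_pos fun p hp => by
    have : (0 : ℝ) < p := by exact_mod_cast (mem_pz.1 hp).2.pos
    positivity
  refine ⟨D * Real.exp (-(k * C + 2 * k ^ 2)), by positivity, fun y hy n => ?_⟩
  have hlog : 0 < Real.log y := Real.log_pos (by
    have : (3 : ℝ) ≤ y := by exact_mod_cast hy
    linarith)
  -- the factors
  have hfac : ∀ p ∈ pz y, (if p ≤ 2 * k then 1 / (p : ℝ) else
      Real.exp (-(k * (1 / (p : ℝ)) + 2 * k ^ 2 * (1 / (p : ℝ) ^ 2)))) ≤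
      1 - (nuB (LOW_Q H n) p : ℝ) / p := by
    intro p hp
    have hpp := (mem_pz.1 hp).2
    have hp0 : (0 : ℝ) < p := by exact_mod_cast hpp.pos
    split_ifs with h
    · have h1 : ((nuB (LOW_Q H n) p : ℕ) : ℝ) + 1 ≤ p := by exact_mod_cast LOW_nu2 hH n hpp
      rw [div_le_iff₀ hp0, sub_mul, div_mul_cancel₀ _ hp0.ne', one_mul]
      linarith
    · have h1 : ((nuB (LOW_Q H n) p : ℕ) : ℝ) ≤ k := by exact_mod_cast LOW_nu1 H n p
      have h2 : (k : ℝ) / p ≤ 1 / 2 := by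
        rw [div_le_iff₀ hp0]
        have : ((2 * k : ℕ) : ℝ) ≤ p := by exact_mod_cast (not_le.1 h).le
        push_cast at this
        linarith
      have h3 := LOW_exp (x := (k : ℝ) / p) (by positivity) h2
      have h4 : (k : ℝ) / p + 2 * ((k : ℝ) / p) ^ 2 =
          k * (1 / (p : ℝ)) + 2 * k ^ 2 * (1 / (p : ℝ) ^ 2) := by
        field_simp
      rw [h4] at h3
      refine h3.trans ?_
      have h5 : (nuB (LOW_Q H n) p : ℝ) / p ≤ (k : ℝ) / p := div_le_div_of_nonneg_right h1 hp0.le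
      linarith
  have hfac0 : ∀ p ∈ pz y, 0 ≤ (if p ≤ 2 * k then 1 / (p : ℝ) else
      Real.exp (-(k * (1 / (p : ℝ)) + 2 * k ^ 2 * (1 / (p : ℝ) ^ 2)))) := by
    intro p _
    split_ifs
    · positivity
    · exact (Real.exp_pos _).le
  refine le_trans ?_ (prod_le_prod hfac0 hfac)
  rw [prod_ite]
  -- the small primes
  have h1 : D ≤ ∏ p ∈ (pz y).filter (fun p => p ≤ 2 * k), (1 / (p : ℝ)) := by
    have hsub : (pz y).filter (fun p => p ≤ 2 * k) ⊆ pz (2 * k) := by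
      intro p hp
      rw [mem_filter] at hp
      exact mem_pz.2 ⟨hp.2, (mem_pz.1 hp.1).2⟩
    rw [hD, ← prod_sdiff hsub]
    have h2 : ∏ p ∈ pz (2 * k) \ (pz y).filter (fun p => p ≤ 2 * k), (1 / (p : ℝ)) ≤ 1 := by
      refine prod_le_one (fun p _ => by positivity) fun p hp => ?_
      have hpp := (mem_pz.1 (mem_sdiff.1 hp).1).2
      have : (1 : ℝ) ≤ p := by exact_mod_cast hpp.one_lt.le
      rw [div_le_one (by linarith)]
      exact this
    exact mul_le_of_le_one_left (prod_nonneg fun p _ => by positivity) h2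
  -- the large primes
  have h2 : Real.exp (-(k * C + 2 * k ^ 2)) / Real.log y ^ k ≤
      ∏ p ∈ (pz y).filter (fun p => ¬ p ≤ 2 * k),
        Real.exp (-(k * (1 / (p : ℝ)) + 2 * k ^ 2 * (1 / (p : ℝ) ^ 2))) := by
    rw [← Real.exp_sum, sum_neg_distrib, sum_add_distrib, ← mul_sum, ← mul_sum]
    have e1 : ∑ p ∈ (pz y).filter (fun p => ¬ p ≤ 2 * k), 1 / (p : ℝ) ≤
        Real.log (Real.log y) + C := by
      refine le_trans (sum_le_sum_of_subset_of_nonneg (filter_subset _ _) fun _ _ _ => by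
        positivity) (hM y hy).1
    have e2 : ∑ p ∈ (pz y).filter (fun p => ¬ p ≤ 2 * k), 1 / (p : ℝ) ^ 2 ≤ 1 :=
      le_trans (sum_le_sum_of_subset_of_nonneg (filter_subset _ _) fun _ _ _ => by
        positivity) (LOW_sq y)
    have e3 : Real.log y ^ k = Real.exp (k * Real.log (Real.log y)) := by
      rw [mul_comm, Real.exp_mul, Real.exp_log hlog, Real.rpow_natCast]
    rw [e3, ← Real.exp_sub, Real.exp_le_exp]
    have k0 : (0 : ℝ) ≤ k := k.cast_nonneg
    nlinarith [mul_le_mul_of_nonneg_left e1 k0, mul_le_mul_of_nonneg_left e2 (sq_nonneg (k : ℝ))]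
  calc D * Real.exp (-(k * C + 2 * k ^ 2)) / Real.log y ^ k =
        D * (Real.exp (-(k * C + 2 * k ^ 2)) / Real.log y ^ k) := by rw [mul_div_assoc]
    _ ≤ _ := mul_le_mul h1 h2 (by positivity) (prod_nonneg fun p _ => by positivity)

theorem t_LOW : Pool.Agent.N422.KT.S_LOW := by
  classical
  intro H hHne hH
  set k : ℕ := H.card with hk
  have hk1 : 1 ≤ k := card_pos.2 hHne
  obtain ⟨C0, x0, hC0, hF⟩ := Pool.Agent.R490.P3a.sys_fundE k hk1
  obtain ⟨c, hc, hP⟩ := LOW_prod hH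
  refine ⟨8 * (C0 * C0) + k + 1, max x0 (max 3 ⌈4 / c⌉₊), c / 4, by omega, by positivity, ?_⟩
  intro y hy U hU n
  have hyx : x0 ≤ y := le_trans (le_max_left _ _) hy
  have hy3 : 3 ≤ y := le_trans (le_trans (le_max_left _ _) (le_max_right _ _)) hy
  have hyc : 4 / c ≤ y := (Nat.le_ceil _).trans
    (by exact_mod_cast le_trans (le_trans (le_max_right _ _) (le_max_right _ _)) hy)
  have hyr : (3 : ℝ) ≤ y := by exact_mod_cast hy3
  have hy0 : (0 : ℝ) < y := by linarith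
  have hlog : 0 < Real.log y := Real.log_pos (by linarith)
  have hlogy : Real.log y ≤ y := (Real.log_le_sub_one_of_pos hy0).trans (by linarith)
  have key := hF C0 le_rfl (y ^ (16 * (C0 * C0))) y hyx le_rfl (LOW_Q H n) (LOW_per H n) U 1 0 le_rfl
    (fun p hp h => (mem_pz.1 hp).2.one_lt.ne' (Nat.dvd_one.1 h))
  have e1 : ((Icc 1 U).filter (fun m : ℕ => m ≡ 0 [MOD 1] ∧ ∀ p ∈ pz y, ¬ LOW_Q H n p m)).card =
      (SH H U y n).card := by
    unfold SH
    congr 1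
    apply filter_congr
    intro m _
    constructor
    · rintro ⟨_, h⟩ p hp g hg h2
      exact h p hp ⟨g, hg, by rwa [add_comm m n]⟩
    · intro h
      refine ⟨Nat.modEq_one, fun p hp h2 => ?_⟩
      obtain ⟨g, hg, h3⟩ := h2
      exact h p hp g hg (by rwa [add_comm m n] at h3)
  have e3 : √((y ^ (16 * (C0 * C0)) : ℕ) : ℝ) = (y : ℝ) ^ (8 * (C0 * C0)) := by
    push_cast
    rw [show 16 * (C0 * C0) = (8 * (C0 * C0)) * 2 by ring, pow_mul]
    exact Real.sqrt_sq (by positivity)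
  rw [e3] at key
  have e4 : ((((Icc 1 U).filter (fun m : ℕ => m ≡ 0 [MOD 1] ∧ ∀ p ∈ pz y, ¬ LOW_Q H n p m)).card : ℕ) : ℝ) =
      ((SH H U y n).card : ℝ) := by
    rw [e1]
  have k2 := (abs_le.1 key).1
  rw [Nat.cast_one, div_one] at k2
  set V : ℝ := ∏ p ∈ pz y, (1 - (nuB (LOW_Q H n) p : ℝ) / p) with hV
  have k3 : -((1 / 2 : ℝ) ^ C0 * (U * V) + (y : ℝ) ^ (8 * (C0 * C0))) ≤
      ((SH H U y n).card : ℝ) - U * V := by
    refine le_trans k2 (le_of_eq ?_)
    congr 1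
  have hVc : c / Real.log y ^ k ≤ V := hP y hy3 n
  have hUr : (y : ℝ) ^ (8 * (C0 * C0) + k + 1) ≤ U := by exact_mod_cast hU
  have hU0 : (0 : ℝ) < U := lt_of_lt_of_le (by positivity) hUr
  have hlk : 0 < Real.log y ^ k := pow_pos hlog k
  have hV0 : 0 < V := lt_of_lt_of_le (by positivity) hVc
  have hhalf : (1 / 2 : ℝ) ^ C0 ≤ 1 / 2 := by
    calc (1 / 2 : ℝ) ^ C0 ≤ (1 / 2 : ℝ) ^ 1 :=
          pow_le_pow_of_le_one (by norm_num) (by norm_num) hC0
      _ = 1 / 2 := pow_one _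
  -- the error
  have h5 : (y : ℝ) ^ (8 * (C0 * C0)) ≤ 1 / 4 * (U * V) := by
    have h6 : c / (y : ℝ) ^ k ≤ V :=
      (div_le_div_of_nonneg_left hc.le hlk (pow_le_pow_left₀ hlog.le hlogy k)).trans hVc
    have h7 : 1 ≤ (y : ℝ) * c / 4 := by
      rw [div_le_iff₀ hc] at hyc
      linarith
    calc (y : ℝ) ^ (8 * (C0 * C0)) = (y : ℝ) ^ (8 * (C0 * C0)) * 1 := (mul_one _).symm
      _ ≤ (y : ℝ) ^ (8 * (C0 * C0)) * (y * c / 4) := mul_le_mul_of_nonneg_left h7 (by positivity)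
      _ = 1 / 4 * ((y : ℝ) ^ (8 * (C0 * C0) + k + 1) * (c / (y : ℝ) ^ k)) := by
          rw [pow_succ, pow_add]
          field_simp
      _ ≤ 1 / 4 * (U * V) := by
          refine mul_le_mul_of_nonneg_left ?_ (by norm_num)
          exact mul_le_mul hUr h6 (by positivity) hU0.le
  have h8 : (1 / 2 : ℝ) ^ C0 * (U * V) ≤ 1 / 2 * (U * V) :=
    mul_le_mul_of_nonneg_right hhalf (by positivity)
  have h9 : c / 4 * (U / Real.log y ^ k) ≤ 1 / 4 * (U * V) := by
    have : c / 4 * (U / Real.log y ^ k) = 1 / 4 * (U * (c / Real.log y ^ k)) := by ring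
    rw [this]
    exact mul_le_mul_of_nonneg_left (mul_le_mul_of_nonneg_left hVc hU0.le) (by norm_num)
  linarith

end Pool.Agent.N422.KT
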