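import Pool.Agent.N422.KT.Stm
import Pool.Agent.N422.NW.CORE

/-! Project KT (helper422), part NX (helper383, after LR/NX by helper793): the main inequality, `κ` classes -/

set_option autoImplicit false

open Finset

namespace Pool.Agent.N422.KT

open Pool.Agent.N422.NW Pool.Agent.N422.SL Pool.Agent.N422.WS Pool.Agent.N422.LG Pool.Agent.N422.LR

theorem NX_al_card {N k : ℕ} {q : Fin N → ℕ} (σ : (i : Fin N) → Fin (q i) → Option (Fin k)) (x : Xs q) (i : ℕ) :
    (al σ x i).card ≤ k := by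
  unfold al
  refine (Finset.card_filter_le _ _).trans ?_
  rw [Finset.card_univ, Fintype.card_fin]

theorem NX_cast {N k : ℕ} {q : Fin N → ℕ} (κ : ℕ) (σ : (i : Fin N) → Fin (q i) → Option (Fin k)) (r : Fin N → ℝ)
    (x x' : Xs q) : ky κ σ (fun i => (r i : ℂ)) x x' = ((ky κ σ r x x' : ℝ) : ℂ) := by
  unfold ky
  rw [Complex.ofReal_prod]
  apply Finset.prod_congr rfl
  intro i _
  unfold ky1
  split_ifs <;> push_cast <;> ring

/-- the elementary inequality for the logarithm -/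
theorem NX_log {X : ℝ} (h0 : 0 ≤ X) (h1 : X ≤ 1 / 3) : -(X + X ^ 2) ≤ Real.log (1 - X) := by
  have hp : 0 < 1 - X := by linarith
  have h2 : Real.log (1 - X)⁻¹ ≤ X + X ^ 2 := by
    rw [Real.log_le_iff_le_exp (by positivity)]
    have h3 : 1 + (X + X ^ 2) + (X + X ^ 2) ^ 2 / 2 ≤ Real.exp (X + X ^ 2) :=
      Real.quadratic_le_exp_of_nonneg (by positivity)
    refine le_trans ?_ h3
    rw [inv_eq_one_div, div_le_iff₀ hp]
    nlinarith [mul_nonneg h0 h0, mul_nonneg (mul_nonneg h0 h0) h0, mul_nonneg (mul_nonneg h0 h0)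
      (sub_nonneg.2 h1), mul_nonneg (mul_nonneg (mul_nonneg h0 h0) h0) (sub_nonneg.2 h1),
      mul_nonneg (mul_nonneg (mul_nonneg (mul_nonneg h0 h0) h0) h0) (sub_nonneg.2 h1)]
  rw [Real.log_inv] at h2
  linarith

/-- the factor of the density, no hit -/
theorem NX_nohit {r g κ : ℝ} (hr0 : 0 ≤ r) (hr : r ≤ 1 / 4) (hg0 : 0 ≤ g) (hg : g ≤ κ) (hg2 : g ≤ 1 / 2) :
    0 < 1 - r / (1 - r) * (g / (1 - g)) ∧
    -((1 + 2 * κ) * g) * r + -(8 * g) * r ^ 2 ≤ Real.log (1 - r / (1 - r) * (g / (1 - g))) := by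
  have hr1 : 0 < 1 - r := by linarith
  have hg1 : 0 < 1 - g := by linarith
  have a1 : r / (1 - r) ≤ r * (1 + 4 / 3 * r) := by
    rw [div_le_iff₀ hr1]
    nlinarith [mul_nonneg (mul_nonneg hr0 hr0) (sub_nonneg.2 hr)]
  have a2 : g / (1 - g) ≤ g * (1 + 2 * g) := by
    rw [div_le_iff₀ hg1]
    nlinarith [mul_nonneg (mul_nonneg hg0 hg0) (sub_nonneg.2 hg2)]
  have a3 : 0 ≤ r / (1 - r) := by positivity
  have a4 : 0 ≤ g / (1 - g) := by positivity
  have a5 : r / (1 - r) ≤ 4 / 3 * r := by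
    rw [div_le_iff₀ hr1]
    nlinarith [mul_nonneg hr0 (sub_nonneg.2 hr)]
  have a6 : g / (1 - g) ≤ 2 * g := by
    rw [div_le_iff₀ hg1]
    nlinarith [mul_nonneg hg0 (sub_nonneg.2 hg2)]
  set X := r / (1 - r) * (g / (1 - g)) with hX
  have hX0 : 0 ≤ X := mul_nonneg a3 a4
  have hX1 : X ≤ (4 / 3 * r) * (2 * g) := mul_le_mul a5 a6 a4 (by positivity)
  have hX2 : X ≤ 1 / 3 := by
    refine hX1.trans ?_
    nlinarith [mul_nonneg hr0 hg0, mul_nonneg hr0 (sub_nonneg.2 hg2)]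
  have hX3 : X ≤ r * (1 + 4 / 3 * r) * (g * (1 + 2 * g)) := mul_le_mul a1 a2 a4 (by positivity)
  have hX4 : X ^ 2 ≤ ((4 / 3 * r) * (2 * g)) ^ 2 := pow_le_pow_left₀ hX0 hX1 2
  refine ⟨by linarith, le_trans ?_ (NX_log hX0 hX2)⟩
  have b1 : r * (1 + 4 / 3 * r) * (g * (1 + 2 * g)) ≤ r * g * (1 + 2 * g) + 8 / 3 * (r ^ 2 * g) := by
    nlinarith [mul_nonneg (mul_nonneg (mul_nonneg hr0 hr0) hg0) (sub_nonneg.2 hg2)]
  have b2 : ((4 / 3 * r) * (2 * g)) ^ 2 ≤ 32 / 9 * (r ^ 2 * g) := by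
    nlinarith [mul_nonneg (mul_nonneg (mul_nonneg hr0 hr0) hg0) (sub_nonneg.2 hg2)]
  have b3 : r * g * (1 + 2 * g) ≤ (1 + 2 * κ) * g * r := by
    nlinarith [mul_nonneg (mul_nonneg hr0 hg0) (sub_nonneg.2 hg)]
  have b4 : 0 ≤ r ^ 2 * g := by positivity
  nlinarith

/-- the factor of the density, hit -/
theorem NX_hit {r : ℝ} (hr0 : 0 ≤ r) (hr : r ≤ 1 / 4) : r ≤ Real.log (1 / (1 - r)) := by
  have hr1 : 0 < 1 - r := by linarith
  rw [one_div, Real.log_inv]
  have := Real.log_le_sub_one_of_pos hr1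
  linarith

theorem NX_g {N k κ : ℕ} {q : Fin N → ℕ} (hq : ∀ i, 2 * (κ * k) ≤ q i ∧ 0 < q i)
    (σ : (i : Fin N) → Fin (q i) → Option (Fin k)) (x : Xs q) (i : Fin N) :
    0 ≤ κ * ((al σ x i).card : ℝ) / q i ∧ κ * ((al σ x i).card : ℝ) / q i ≤ (κ * k : ℝ) / q i ∧
    κ * ((al σ x i).card : ℝ) / q i ≤ 1 / 2 ∧
    κ * ((al σ x i).card : ℝ) / ((q i : ℝ) - κ * ((al σ x i).card : ℝ)) =
      (κ * ((al σ x i).card : ℝ) / q i) / (1 - κ * ((al σ x i).card : ℝ) / q i) := by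
  have h1 : (0 : ℝ) < q i := by exact_mod_cast (hq i).2
  have h2' : ((al σ x i).card : ℝ) ≤ k := by exact_mod_cast NX_al_card σ x i
  have h2 : (κ : ℝ) * ((al σ x i).card : ℝ) ≤ κ * k := mul_le_mul_of_nonneg_left h2' (Nat.cast_nonneg _)
  have h3 : 2 * ((κ : ℝ) * k) ≤ q i := by exact_mod_cast (hq i).1
  refine ⟨by positivity, div_le_div_of_nonneg_right h2 h1.le, ?_, ?_⟩
  · rw [div_le_iff₀ h1]; linarith
  · have h4 : 0 < (q i : ℝ) - κ * ((al σ x i).card : ℝ) := by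
      have h5 : (κ : ℝ) * ((al σ x i).card : ℝ) ≤ q i / 2 := by linarith
      linarith
    have h6 : 1 - κ * ((al σ x i).card : ℝ) / q i = ((q i : ℝ) - κ * ((al σ x i).card : ℝ)) / q i := by
      field_simp
    rw [h6]
    field_simp

/-- the lower bound for the logarithm of the density -/
theorem NX_log_phy {N k κ : ℕ} {q : Fin N → ℕ} (hq : ∀ i, 2 * (κ * k) ≤ q i ∧ 0 < q i)
    (σ : (i : Fin N) → Fin (q i) → Option (Fin k)) (r : Fin N → ℝ) (hr : ∀ i, 0 ≤ r i ∧ r i ≤ 1 / 4) (x : Xs q) :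
    ∑ i : Fin N, (((if Hit (al σ x i) (σ i (x i)) then 1 else 0) -
        (1 + 2 * ((κ * k : ℝ) / q i)) * (κ * ((al σ x i).card : ℝ) / q i)) * r i +
      -(8 * (κ * ((al σ x i).card : ℝ) / q i)) * r i ^ 2) ≤ Real.log (phy κ σ r x) := by
  unfold phy
  have hpos : ∀ i : Fin N, 0 < (if Hit (al σ x i) (σ i (x i)) then 1 / (1 - r i) else
    1 - r i / (1 - r i) * (κ * ((al σ x i).card : ℝ) / ((q i : ℝ) - κ * ((al σ x i).card : ℝ)))) := by
    intro i
    obtain ⟨g1, g2, g3, g4⟩ := NX_g hq σ x i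
    split_ifs
    · have : 0 < 1 - r i := by linarith [(hr i).2]
      positivity
    · rw [g4]
      exact (NX_nohit (hr i).1 (hr i).2 g1 g2 g3).1
  rw [Real.log_prod (fun i _ => (hpos i).ne')]
  refine Finset.sum_le_sum fun i _ => ?_
  obtain ⟨g1, g2, g3, g4⟩ := NX_g hq σ x i
  split_ifs
  · have hr0 := (hr i).1
    refine le_trans ?_ (NX_hit (hr i).1 (hr i).2)
    have e1 : 0 ≤ (κ * k : ℝ) / q i := g1.trans g2
    have e2 : 0 ≤ (1 + 2 * ((κ * k : ℝ) / q i)) * (κ * ((al σ x i).card : ℝ) / q i) * r i := by positivity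
    have e3 : 0 ≤ 8 * (κ * ((al σ x i).card : ℝ) / q i) * r i ^ 2 := by positivity
    nlinarith
  · rw [g4]
    refine le_trans (le_of_eq ?_) (NX_nohit (hr i).1 (hr i).2 g1 g2 g3).2
    ring

theorem t_NX (h1 : Pool.Agent.N422.KT.S_KX) (h2 : Pool.Agent.N422.KT.S_PX) (h3 : S_AV) (h4 : S_GEN2) :
    Pool.Agent.N422.KT.S_NX := by
  intro N k κ n q σ ν f hq hone hLev t ht R hR hpos
  classical
  set s : ℝ := Real.exp (-t) with hs
  have hs0 : 0 < s := Real.exp_pos _
  -- the rates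
  set a : Fin N → ℂ → ℝ := fun i z => Real.cosh (ν i * t) - (z ^ ν i).re with ha
  set ρ : ℂ → Fin N → ℝ := fun z i => R i * a i z with hρ
  have hpsi : ∀ w : ℂ, ‖w‖ = 1 → ‖psi s w‖ = 1 := (h3 0 t ht).1
  have hcont : Continuous (fun θ : ℝ => psi s (circleMap 0 1 θ)) := (h3 0 t ht).2.1
  have hρb : ∀ z : ℂ, ‖z‖ = 1 → ∀ i, 0 ≤ ρ z i ∧ ρ z i ≤ 1 / 4 := by
    intro z hz i
    have g1 : |(z ^ ν i).re| ≤ 1 := by
      refine (Complex.abs_re_le_norm _).trans ?_
      rw [norm_pow, hz, one_pow]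
    have g2 := Real.one_le_cosh (ν i * t)
    rw [abs_le] at g1
    have g3 : 0 ≤ a i z := by simp only [ha]; linarith [g1.2]
    have g4 : a i z ≤ Real.cosh (ν i * t) + 1 := by simp only [ha]; linarith [g1.1]
    exact ⟨mul_nonneg (hR i).1 g3, (mul_le_mul_of_nonneg_left g4 (hR i).1).trans (hR i).2⟩
  -- the complex rates
  have hrate : ∀ z : ℂ, ‖z‖ = 1 → (fun i : Fin N => (R i : ℂ) * ((Real.cosh (ν i * t) : ℝ) -
      (z ^ ν i + (z⁻¹) ^ ν i) / 2)) = fun i => ((ρ z i : ℝ) : ℂ) := by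
    intro z hz
    funext i
    have hinv : z⁻¹ = (starRingEnd ℂ) z := by
      rw [Complex.inv_def, Complex.normSq_eq_norm_sq, hz]
      simp
    have e3 : (z ^ ν i + (z⁻¹) ^ ν i) / 2 = (((z ^ ν i).re : ℝ) : ℂ) := by
      rw [hinv, ← map_pow, Complex.add_conj]
      push_cast
      ring
    rw [e3]
    simp only [hρ, ha]
    push_cast
    ring
  -- the lower bound for the density
  set α : Xs q → Fin N → ℝ := fun x i => ((if Hit (al σ x i) (σ i (x i)) then 1 else 0) -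
        (1 + 2 * ((κ * k : ℝ) / q i)) * (κ * ((al σ x i).card : ℝ) / q i)) * R i with hα
  set β : Xs q → Fin N → ℝ := fun x i => -(8 * (κ * ((al σ x i).card : ℝ) / q i)) * R i ^ 2 with hβ
  have hLB : ∀ x w, ‖w‖ = 1 → ∑ i, (α x i * a i (psi s w) + β x i * a i (psi s w) ^ 2) ≤
      Real.log (phy κ σ (ρ (psi s w)) x) := by
    intro x w hw
    have hz := hpsi w hw
    refine le_trans (le_of_eq ?_) (NX_log_phy hq σ (ρ (psi s w)) (hρb _ hz) x)
    apply Finset.sum_congr rfl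
    intro i _
    simp only [hα, hβ, hρ]
    ring
  -- integrability
  have hac : ∀ i, Continuous (fun θ : ℝ => a i (psi s (circleMap 0 1 θ))) := by
    intro i
    exact continuous_const.sub (Complex.continuous_re.comp (hcont.pow _))
  have hai : ∀ i, CircleIntegrable (fun w => a i (psi s w)) 0 1 := fun i =>
    Continuous.intervalIntegrable (hac i) _ _
  have hai2 : ∀ i, CircleIntegrable (fun w => a i (psi s w) ^ 2) 0 1 := fun i =>
    Continuous.intervalIntegrable ((hac i).pow 2) _ _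
  have hca : ∀ i, Real.circleAverage (fun w => a i (psi s w)) 0 1 = Real.sinh (ν i * t) :=
    fun i => (h3 (ν i) t ht).2.2.1
  have hca2 : ∀ i, Real.circleAverage (fun w => a i (psi s w) ^ 2) 0 1 =
      Real.sinh (ν i * t) * Real.cosh (ν i * t) := fun i => (h3 (ν i) t ht).2.2.2
  have hV : ∀ x, CircleIntegrable
      (fun w => ∑ i, (α x i * a i (psi s w) + β x i * a i (psi s w) ^ 2)) 0 1 ∧
      Real.circleAverage (fun w => ∑ i, (α x i * a i (psi s w) + β x i * a i (psi s w) ^ 2)) 0 1 =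
      ∑ i : Fin N, R i * Real.sinh (ν i * t) * ((if Hit (al σ x i) (σ i (x i)) then 1 else 0) -
      (1 + 8 * R i * Real.cosh (ν i * t) + 2 * (κ * k) / q i) * (κ * ((al σ x i).card : ℝ) / q i)) := by
    intro x
    have hi : ∀ i ∈ (univ : Finset (Fin N)),
        CircleIntegrable (fun w => α x i * a i (psi s w) + β x i * a i (psi s w) ^ 2) 0 1 := fun i _ =>
      (CORE_ca_lin (fun w => a i (psi s w)) (hai i) (hai2 i) (α x i) (β x i)).1
    refine ⟨?_, ?_⟩
    · have := CircleIntegrable.sum univ hi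
      convert this using 1
      funext w
      rw [Finset.sum_apply]
    rw [Real.circleAverage_fun_sum hi]
    apply Finset.sum_congr rfl
    intro i _
    rw [(CORE_ca_lin (fun w => a i (psi s w)) (hai i) (hai2 i) (α x i) (β x i)).2, hca, hca2]
    simp only [hα, hβ]
    ring
  -- the general inequality
  have key := h4 (Xs q) n (fun _ => 1) f t
    (fun z x y => ky κ σ (fun i => (R i : ℂ) * ((Real.cosh (ν i * t) : ℝ) -
      (z ^ ν i + (z⁻¹) ^ ν i) / 2)) x y)
    (fun z x => phy κ σ (ρ z) x)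
    (fun x => ∑ i : Fin N, R i * Real.sinh (ν i * t) * ((if Hit (al σ x i) (σ i (x i)) then 1 else 0) -
      (1 + 8 * R i * Real.cosh (ν i * t) + 2 * (κ * k) / q i) * (κ * ((al σ x i).card : ℝ) / q i)))
    (fun _ => zero_le_one) ht ?_ ?_ ?_ ?_ (by simpa only [one_mul] using hpos)
  · simpa only [one_mul] using key
  · -- the point `s`
    intro x y
    have h0 : (fun i : Fin N => (R i : ℂ) * ((Real.cosh (ν i * t) : ℝ) -
        ((s : ℂ) ^ ν i + ((s : ℂ)⁻¹) ^ ν i) / 2)) = fun _ => 0 := by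
      funext i
      have e1 : s ^ ν i = Real.exp (-(ν i * t)) := by
        rw [hs, ← Real.exp_nat_mul]
        congr 1; ring
      have e2 : (s⁻¹) ^ ν i = Real.exp (ν i * t) := by
        rw [hs, ← Real.exp_neg, ← Real.exp_nat_mul]
        congr 1; ring
      have e3 : ((s : ℂ) ^ ν i + ((s : ℂ)⁻¹) ^ ν i) / 2 = ((Real.cosh (ν i * t) : ℝ) : ℂ) := by
        rw [Real.cosh_eq, ← e1, ← e2]
        push_cast
        ring
      rw [e3]; ring
    show ky κ σ (fun i : Fin N => (R i : ℂ) * ((Real.cosh (ν i * t) : ℝ) -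
        ((s : ℂ) ^ ν i + ((s : ℂ)⁻¹) ^ ν i) / 2)) x y = _
    rw [h0]
    exact (h1 N k κ q σ (fun _ => 0) hq hone (fun i => ⟨le_rfl, by norm_num⟩)).2.2.2 x y
  · -- polynomials
    intro x
    obtain ⟨P, hP⟩ := h2 N k κ n q σ ν f hq hone hLev (fun i => Real.cosh (ν i * t)) R x
    exact ⟨P, hP⟩
  · -- the adjoint
    intro z hz
    obtain ⟨k1, k2, k3, -⟩ := h1 N k κ q σ (ρ z) hq hone
      (fun i => ⟨(hρb z hz i).1, (hρb z hz i).2.trans (by norm_num)⟩)
    refine ⟨fun x => k2 x, fun y => ?_⟩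
    refine le_of_eq (Eq.trans ?_ (k3 y))
    apply Finset.sum_congr rfl
    intro x _
    show 1 * phy κ σ (ρ z) x * ‖ky κ σ (fun i : Fin N => (R i : ℂ) * ((Real.cosh (ν i * t) : ℝ) -
        (z ^ ν i + (z⁻¹) ^ ν i) / 2)) x y‖ = _
    rw [hrate z hz, NX_cast, Complex.norm_real, Real.norm_of_nonneg (k1 x y), one_mul]
  · -- the logarithm of the density
    intro x
    have hphic : Continuous (fun θ : ℝ => phy κ σ (ρ (psi s (circleMap 0 1 θ))) x) := by
      unfold phy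
      apply continuous_finsetProd
      intro i _
      have hρc : Continuous (fun θ : ℝ => ρ (psi s (circleMap 0 1 θ)) i) := continuous_const.mul (hac i)
      have hne : ∀ θ : ℝ, 1 - ρ (psi s (circleMap 0 1 θ)) i ≠ 0 := by
        intro θ
        have hw : ‖circleMap 0 1 θ‖ = 1 := by simp
        have := (hρb _ (hpsi _ hw) i).2
        intro h
        linarith
      have hsub : Continuous (fun θ : ℝ => 1 - ρ (psi s (circleMap 0 1 θ)) i) := continuous_const.sub hρc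
      split_ifs
      · exact continuous_const.div hsub hne
      · exact continuous_const.sub ((hρc.div hsub hne).mul_const _)
    have hint : CircleIntegrable (fun w => Real.log (phy κ σ (ρ (psi s w)) x)) 0 1 := by
      apply Continuous.intervalIntegrable
      apply Continuous.log hphic
      intro θ
      have hw : ‖circleMap 0 1 θ‖ = 1 := by simp
      exact ((h1 N k κ q σ (ρ (psi s (circleMap 0 1 θ))) hq hone
        (fun i => ⟨(hρb _ (hpsi _ hw) i).1, (hρb _ (hpsi _ hw) i).2.trans (by norm_num)⟩)).2.1 x).ne'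
    refine ⟨hint, ?_⟩
    rw [← (hV x).2]
    apply Real.circleAverage_mono (hV x).1 hint
    intro w hw
    apply hLB x w
    rw [mem_sphere_zero_iff_norm] at hw
    rw [hw]; simp

end Pool.Agent.N422.KT
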