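import Pool.Agent.N422.KT.Stm
import Pool.Agent.N422.LR.RX

/-! Project KT (helper422): the recursion over the scales, tuples (KT/RX), by helper744
(adapted from LR/RX of helper935). -/

set_option autoImplicit false

open Finset

namespace Pool.Agent.N422.KT

open Pool.Agent.N422.NW Pool.Agent.N422.SL Pool.Agent.N422.WS Pool.Agent.N422.LG Pool.Agent.N422.LR

/-- one window -/
lemma RXK_step (hH : Pool.Agent.N422.KT.S_HX) (H : Finset ℕ) (D0 : ℕ) (κ : ℝ) (hκ : κ = (H.card : ℝ))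
    (hκ1 : 1 ≤ κ) (hD1 : 1 ≤ D0) (hHD : ∀ g ∈ H, ∀ g' ∈ H, g < g' + D0)
    (Q U z z' : ℕ) (δ : ℝ) (c : ℕ → ℕ → ℝ) (hz : 2 ≤ z) (hzz : z ≤ z')
    (hzQ : z' ≤ Q) (hδ : 0 < δ) (hδ1 : δ ≤ 1 / 100) (hzδ : 8 * κ / (z : ℝ) ≤ δ)
    (hzD : 2 * (D0 : ℝ) ≤ z) (hw : 0 < mP Q (ws Q c)) :
    (1 - (1 + 12 * δ) * (κ * RECD z' z)) * mP Q (fun n => max (ws Q c n) 0 * ((SH H U z n).card : ℝ)) -
      (24 * κ * D0 / δ ^ 2 * ((U / (z : ℝ) + 1) * (Real.log Q / Real.log z))) *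
        mP Q (fun n => max (ws Q c n) 0) ≤
    mP Q (fun n => max (ws Q c n) 0 * ((SH H U z' n).card : ℝ)) := by
  have hz0 : (0 : ℝ) < z := by exact_mod_cast (by omega : 0 < z)
  have hκ0 : 0 < κ := by linarith
  rw [div_le_iff₀ hz0] at hzδ
  have hD1' : (1 : ℝ) ≤ D0 := by exact_mod_cast hD1
  -- the number b
  obtain ⟨b, hb1, hb2, hb3⟩ : ∃ b : ℕ, 1 ≤ b ∧ (b : ℝ) ≤ δ * z / (4 * κ) ∧ δ * z / (8 * κ) ≤ (b : ℝ) := by
    have h0 : 1 ≤ δ * z / (8 * κ) := by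
      rw [le_div_iff₀ (by positivity)]
      linarith
    have h1 : δ * z / (4 * κ) = 2 * (δ * z / (8 * κ)) := by
      field_simp
      ring
    refine ⟨⌊δ * z / (4 * κ)⌋₊, ?_, ?_, ?_⟩
    · rw [Nat.one_le_floor_iff]
      linarith
    · exact Nat.floor_le (by positivity)
    · have := Nat.lt_floor_add_one (δ * z / (4 * κ))
      linarith
  have hb0 : (0 : ℝ) < b := by exact_mod_cast (by omega : 0 < b)
  rw [le_div_iff₀ (by positivity)] at hb2
  have hbκ : κ * b ≤ δ * z / 4 := by linarith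
  have hbz1 : (b : ℝ) ≤ κ * b := by nlinarith
  have h2b : 2 * (H.card * b) ≤ z := by
    have : (2 : ℝ) * ((H.card : ℝ) * b) ≤ z := by
      rw [← hκ]
      nlinarith
    exact_mod_cast this
  have hbD : b + D0 ≤ z := by
    have : (b : ℝ) + D0 ≤ z := by nlinarith
    exact_mod_cast this
  have h1 := hH H Q U z z' b D0 δ c hz hzz hzQ hb1 hD1 hHD hbD h2b hδ (by linarith)
  rw [← hκ] at h1
  obtain ⟨X, hX⟩ : ∃ X, X = mP Q (fun n => max (ws Q c n) 0 * ((SH H U z n).card : ℝ)) := ⟨_, rfl⟩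
  obtain ⟨X', hX'⟩ : ∃ X', X' = mP Q (fun n => max (ws Q c n) 0 * ((SH H U z' n).card : ℝ)) :=
    ⟨_, rfl⟩
  obtain ⟨Ep, hEp⟩ : ∃ Ep, Ep = mP Q (fun n => max (ws Q c n) 0) := ⟨_, rfl⟩
  obtain ⟨Em, hEm⟩ : ∃ Em, Em = mP Q (fun n => max (-ws Q c n) 0) := ⟨_, rfl⟩
  have hX0 : 0 ≤ X := by
    rw [hX]
    exact RX_mP_nonneg fun n => mul_nonneg (le_max_right _ _) (Nat.cast_nonneg _)
  have hEp0 : 0 ≤ Ep := by
    rw [hEp]
    exact RX_mP_nonneg fun n => le_max_right _ _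
  have hEm0 : 0 ≤ Em := by
    rw [hEm]
    exact RX_mP_nonneg fun n => le_max_right _ _
  have hle : Em ≤ Ep := by
    have := RX_mP_sub Q (ws Q c)
    rw [← hEp, ← hEm] at this
    linarith
  have hD : (∑ p ∈ PQ z' z, 1 / (p : ℝ)) = RECD z' z := rfl
  rw [← hX, ← hX', ← hEp, ← hEm, hD] at h1
  rw [← hX, ← hX', ← hEp]
  have hD0 : 0 ≤ κ * RECD z' z := mul_nonneg hκ0.le (RECD_nonneg z' z)
  obtain ⟨D, hDD⟩ : ∃ D, D = κ * RECD z' z := ⟨_, rfl⟩
  rw [← hDD] at h1 hD0 ⊢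
  -- the logarithms
  have hlz : 0 < Real.log z := Real.log_pos (by exact_mod_cast (by omega : 1 < z))
  have hL1 : 1 ≤ Real.log Q / Real.log z := by
    rw [one_le_div hlz]
    exact Real.log_le_log hz0 (by exact_mod_cast hzz.trans hzQ)
  obtain ⟨L, hL⟩ : ∃ L, L = Real.log Q / Real.log z := ⟨_, rfl⟩
  rw [← hL] at h1 hL1 ⊢
  -- the main term
  have hbz : κ * (b : ℝ) / z ≤ δ / 2 := by
    rw [div_le_iff₀ hz0]
    nlinarith
  have h2 : (1 + 11 * δ + 2 * (κ * (b : ℝ) / z)) * D * X ≤ (1 + 12 * δ) * D * X := by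
    apply mul_le_mul_of_nonneg_right _ hX0
    apply mul_le_mul_of_nonneg_right _ hD0
    linarith
  -- the error
  have hU0 : (0 : ℝ) ≤ U := Nat.cast_nonneg U
  have h3 : (U : ℝ) / b + 1 ≤ 8 * κ / δ * (U / z + 1) := by
    have h4 : (U : ℝ) / b ≤ U / (δ * z / (8 * κ)) := div_le_div_of_nonneg_left hU0 (by positivity) hb3
    have h5 : (U : ℝ) / (δ * z / (8 * κ)) = 8 * κ / δ * (U / z) := by
      field_simp
    have h6 : 1 ≤ 8 * κ / δ := by
      rw [le_div_iff₀ hδ]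
      linarith
    rw [mul_add, mul_one]
    linarith
  have h4 : (2 * L * Ep + Em) / δ ≤ 3 * L * Ep / δ := by
    apply div_le_div_of_nonneg_right _ hδ.le
    nlinarith
  have h5 : ((U : ℝ) / b + 1) * D0 * ((2 * L * Ep + Em) / δ) ≤
      (8 * κ / δ * (U / z + 1)) * D0 * (3 * L * Ep / δ) := by
    apply mul_le_mul (mul_le_mul_of_nonneg_right h3 (by positivity)) h4 (by positivity) (by positivity)
  have h6 : (8 * κ / δ * ((U : ℝ) / z + 1)) * D0 * (3 * L * Ep / δ) =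
      (24 * κ * D0 / δ ^ 2 * ((U / (z : ℝ) + 1) * L)) * Ep := by
    field_simp
    ring
  rw [h6] at h5
  have h7 : (1 - (1 + 12 * δ) * D) * X = X - (1 + 12 * δ) * D * X := by ring
  rw [h7]
  linarith

/-- the factor of one step -/
lemma RXK_factor {δ a κ C : ℝ} (hδ : 0 < δ) (hκ1 : 1 ≤ κ) (hC : 100 * κ ≤ C) (hδC : C * δ ≤ 1)
    (ha : 0 ≤ a) (ha2 : a ≤ 2 * κ * δ) :
    Real.exp (-((1 + C * δ) * a)) ≤ 1 - (1 + 12 * δ) * a := by
  have hκδ : 100 * κ * δ ≤ 1 := (mul_le_mul_of_nonneg_right hC hδ.le).trans hδC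
  have hδ1 : 100 * δ ≤ 1 := by nlinarith
  have hx0 : 0 ≤ (1 + 12 * δ) * a := by positivity
  have ha3 : a ≤ 1 / 50 := by linarith
  have hx1 : (1 + 12 * δ) * a ≤ 1 / 2 := by nlinarith
  refine le_trans (Real.exp_le_exp.2 (neg_le_neg ?_)) (REC_exp hx0 hx1)
  have h1 : (1 + 12 * δ) * (1 + 12 * δ) ≤ 2 := by nlinarith
  have h2 : (1 + 12 * δ) * (1 + 12 * δ) * a ≤ 2 * (2 * κ * δ) := mul_le_mul h1 ha2 ha (by norm_num)
  have h3 : (1 + 12 * δ) * a + ((1 + 12 * δ) * a) ^ 2 =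
      a * ((1 + 12 * δ) + (1 + 12 * δ) * (1 + 12 * δ) * a) := by ring
  rw [h3, mul_comm (1 + C * δ) a]
  apply mul_le_mul_of_nonneg_left _ ha
  have h4 : (12 + 4 * κ) * δ ≤ C * δ := mul_le_mul_of_nonneg_right (by linarith) hδ.le
  linarith

/-- the error of a step, multiplied by the later factors -/
lemma RXK_err {δ K a b L κ C D0 : ℝ} (U y z : ℝ) (hU : 0 ≤ U) (hy : 0 < y) (hyz : y ≤ z) (hδ : 0 < δ)
    (hδ1 : δ ≤ 1 / 100) (ha2 : a ≤ 2 * δ) (hb : 0 ≤ b) (hL : 0 ≤ L) (hκ1 : 1 ≤ κ) (hD1 : 1 ≤ D0)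
    (hC : 100 * κ * D0 ≤ C) (hK : Real.exp (-(a + b)) * L ≤ K) :
    Real.exp (-((1 + C * δ) * (κ * b))) * (24 * κ * D0 / δ ^ 2 * ((U / z + 1) * L)) ≤
      (U / y + 1) * (C * K / δ ^ 2) := by
  have hC0 : 0 ≤ C := le_trans (by positivity) hC
  have h1 : Real.exp (-((1 + C * δ) * (κ * b))) ≤ Real.exp (-(a + b)) * Real.exp a := by
    rw [← Real.exp_add]
    apply Real.exp_le_exp.2
    have e1 : b ≤ κ * b := by nlinarith
    have e2 : 0 ≤ C * δ * (κ * b) := by positivity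
    nlinarith
  have h2 : Real.exp (-(a + b)) * Real.exp a ≤ Real.exp (-(a + b)) * (8 / 7) :=
    mul_le_mul_of_nonneg_left (RX_exp hδ1 ha2) (Real.exp_pos _).le
  have h3 : Real.exp (-((1 + C * δ) * (κ * b))) * L ≤ 8 / 7 * K := by
    calc Real.exp (-((1 + C * δ) * (κ * b))) * L ≤ Real.exp (-(a + b)) * (8 / 7) * L :=
          mul_le_mul_of_nonneg_right (h1.trans h2) hL
      _ = 8 / 7 * (Real.exp (-(a + b)) * L) := by ring
      _ ≤ 8 / 7 * K := mul_le_mul_of_nonneg_left hK (by norm_num)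
  have hz : 0 < z := hy.trans_le hyz
  have h4 : U / z + 1 ≤ U / y + 1 := by
    have := div_le_div_of_nonneg_left hU hy hyz
    linarith
  have h5 : 0 ≤ U / z + 1 := by positivity
  have h6 : 0 ≤ Real.exp (-((1 + C * δ) * (κ * b))) * L := mul_nonneg (Real.exp_pos _).le hL
  have hK0 : 0 ≤ K := (mul_nonneg (Real.exp_pos _).le hL).trans hK
  have hκD : 0 ≤ κ * D0 := by positivity
  have h7 : 24 * κ * D0 * (Real.exp (-((1 + C * δ) * (κ * b))) * L) ≤ C * K := by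
    have e1 : 24 * κ * D0 * (Real.exp (-((1 + C * δ) * (κ * b))) * L) ≤ 24 * κ * D0 * (8 / 7 * K) :=
      mul_le_mul_of_nonneg_left h3 (by positivity)
    have e2 : 100 * κ * D0 * K ≤ C * K := mul_le_mul_of_nonneg_right hC hK0
    have e3 : 0 ≤ κ * D0 * K := mul_nonneg hκD hK0
    have e4 : 24 * κ * D0 * (8 / 7 * K) = 192 / 7 * (κ * D0 * K) := by ring
    have e5 : 100 * κ * D0 * K = 100 * (κ * D0 * K) := by ring
    linarith
  have h8 : 0 ≤ 24 * κ * D0 * (Real.exp (-((1 + C * δ) * (κ * b))) * L) / δ ^ 2 :=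
    div_nonneg (mul_nonneg (by positivity) h6) (by positivity)
  calc Real.exp (-((1 + C * δ) * (κ * b))) * (24 * κ * D0 / δ ^ 2 * ((U / z + 1) * L))
      = (U / z + 1) * (24 * κ * D0 * (Real.exp (-((1 + C * δ) * (κ * b))) * L) / δ ^ 2) := by
        ring
    _ ≤ (U / y + 1) * (C * K / δ ^ 2) := by
        apply mul_le_mul h4 _ h8 (h5.trans h4)
        exact div_le_div_of_nonneg_right h7 (by positivity)

theorem t_RX (h : Pool.Agent.N422.KT.S_HX) : Pool.Agent.N422.KT.S_RX := by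
  intro H hHne
  obtain ⟨κ, hκ⟩ : ∃ κ : ℝ, κ = (H.card : ℝ) := ⟨_, rfl⟩
  have hκ1 : 1 ≤ κ := by
    rw [hκ]
    exact_mod_cast hHne.card_pos
  have hκ0 : 0 < κ := by linarith
  obtain ⟨D0, hD0⟩ : ∃ D0 : ℕ, D0 = H.sup id + 1 := ⟨_, rfl⟩
  have hD1 : 1 ≤ D0 := by omega
  have hD1' : (1 : ℝ) ≤ D0 := by exact_mod_cast hD1
  have hHD : ∀ g ∈ H, ∀ g' ∈ H, g < g' + D0 := by
    intro g hg g' _
    have : g ≤ H.sup id := Finset.le_sup (f := id) hg
    omega
  obtain ⟨C, hC⟩ : ∃ C : ℝ, C = 100 * κ * D0 := ⟨_, rfl⟩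
  have hCκ : 100 * κ ≤ C := by
    rw [hC]
    nlinarith
  have hCD : 2 * (D0 : ℝ) ≤ C := by
    rw [hC]
    nlinarith
  refine ⟨C, by linarith, ?_⟩
  rw [← hκ]
  intro Q U y δ K c hy hyQ hδ hδC hyδ hw hK
  have hC0 : 0 < C := by linarith
  have hδC' : C * δ ≤ 1 := by
    rw [le_div_iff₀ hC0] at hδC
    linarith
  have hδ1 : δ ≤ 1 / 100 := by nlinarith
  have hy0 : (0 : ℝ) < y := by exact_mod_cast (by omega : 0 < y)
  obtain ⟨Ep, hEp⟩ : ∃ Ep, Ep = mP Q (fun n => max (ws Q c n) 0) := ⟨_, rfl⟩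
  have hB : 0 ≤ Ep := by
    rw [hEp]
    exact RX_mP_nonneg fun n => le_max_right _ _
  have hKD : ∀ z : ℕ, y ≤ z → z ≤ Q → Real.exp (-RECD Q z) * (Real.log Q / Real.log z) ≤ K := hK
  have hlog : ∀ z : ℕ, y ≤ z → 0 ≤ Real.log Q / Real.log z := fun z _ =>
    div_nonneg (Real.log_natCast_nonneg Q) (Real.log_natCast_nonneg z)
  have hK0 : 0 ≤ K := (mul_nonneg (Real.exp_pos _).le (hlog Q hyQ)).trans (hKD Q hyQ le_rfl)
  obtain ⟨E, hE⟩ : ∃ E : ℝ, E = (U / y + 1) * (C * K / δ ^ 2) := ⟨_, rfl⟩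
  have hE0 : 0 ≤ E := by
    rw [hE]
    positivity
  obtain ⟨A, hA⟩ : ∃ A : ℕ → ℝ, ∀ z, A z = mP Q (fun n => max (ws Q c n) 0 * ((SH H U z n).card : ℝ)) :=
    ⟨_, fun _ => rfl⟩
  have hA0 : ∀ z, 0 ≤ A z := fun z => by
    rw [hA]
    exact RX_mP_nonneg (fun n => mul_nonneg (le_max_right _ _) (Nat.cast_nonneg _))
  have hEB : 0 ≤ E * Ep := mul_nonneg hE0 hB
  have hyδ' : C ≤ δ * y := by rwa [div_le_iff₀ hy0] at hyδ
  have step : ∀ z z', y ≤ z → z ≤ z' → z' ≤ Q → RECD z' z ≤ 2 * δ →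
      Real.exp (-((1 + C * δ) * (κ * RECD Q z))) * A z - E * Ep ≤
        Real.exp (-((1 + C * δ) * (κ * RECD Q z'))) * A z' := by
    intro z z' h1 h2 h3 h4
    have hyz : (y : ℝ) ≤ z := by exact_mod_cast h1
    have hz0 : (0 : ℝ) < z := hy0.trans_le hyz
    have hδz : C ≤ δ * z := hyδ'.trans (mul_le_mul_of_nonneg_left hyz hδ.le)
    have hzδ : 8 * κ / (z : ℝ) ≤ δ := by
      rw [div_le_iff₀ hz0]
      linarith
    have hzD : 2 * (D0 : ℝ) ≤ z := by nlinarith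
    have h5 := RXK_step h H D0 κ hκ hκ1 hD1 hHD Q U z z' δ c (hy.trans h1) h2 h3 hδ hδ1 hzδ hzD hw
    rw [← hA, ← hA, ← hEp] at h5
    have hd := RECD_add h2 h3
    have h6 := mul_le_mul_of_nonneg_right (RXK_factor hδ hκ1 hCκ hδC'
      (mul_nonneg hκ0.le (RECD_nonneg z' z))
      (by nlinarith : κ * RECD z' z ≤ 2 * κ * δ)) (hA0 z)
    have hk := hKD z h1 (h2.trans h3)
    rw [hd] at hk
    have h7 := RXK_err (U : ℝ) (y : ℝ) (z : ℝ) (Nat.cast_nonneg U) hy0 hyz hδ hδ1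
      h4 (RECD_nonneg Q z') (hlog z h1) hκ1 hD1' hC.ge hk
    rw [← hE] at h7
    have h8 := mul_le_mul_of_nonneg_right h7 hB
    obtain ⟨f, hf⟩ : ∃ f, f = Real.exp (-((1 + C * δ) * (κ * RECD Q z'))) := ⟨_, rfl⟩
    have hf0 : 0 ≤ f := by rw [hf]; exact (Real.exp_pos _).le
    rw [← hf] at h8 ⊢
    have h9 : Real.exp (-((1 + C * δ) * (κ * RECD Q z))) =
        f * Real.exp (-((1 + C * δ) * (κ * RECD z' z))) := by
      rw [hf, ← Real.exp_add, hd]
      congr 1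
      ring
    rw [h9]
    have h10 := mul_le_mul_of_nonneg_left h6 hf0
    have h11 := mul_le_mul_of_nonneg_left h5 hf0
    rw [mul_sub] at h11
    have h13 : f * ((24 * κ * D0 / δ ^ 2 * ((U / (z : ℝ) + 1) * (Real.log Q / Real.log z))) * Ep) =
      f * (24 * κ * D0 / δ ^ 2 * ((U / (z : ℝ) + 1) * (Real.log Q / Real.log z))) * Ep := by ring
    rw [h13] at h11
    have h14 : f * Real.exp (-((1 + C * δ) * (κ * RECD z' z))) * A z =
      f * (Real.exp (-((1 + C * δ) * (κ * RECD z' z))) * A z) := by ring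
    rw [h14]
    linarith
  have main : ∀ k z, Q - z = k → y ≤ z → z ≤ Q →
      Real.exp (-((1 + C * δ) * (κ * RECD Q z))) * A z - (RECD Q z / δ + 1) * E * Ep ≤ A Q := by
    intro k
    induction k using Nat.strong_induction_on with
    | _ k ih =>
      intro z hk hyz hzQ
      by_cases hD : RECD Q z ≤ δ
      · have h1 := step z Q hyz hzQ le_rfl (by linarith)
        rw [RECD_self Q] at h1
        simp only [mul_zero, neg_zero, Real.exp_zero, one_mul] at h1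
        have h2 : 0 ≤ RECD Q z / δ * (E * Ep) :=
          mul_nonneg (div_nonneg (RECD_nonneg Q z) hδ.le) hEB
        have h3 : (RECD Q z / δ + 1) * E * Ep =
          RECD Q z / δ * (E * Ep) + E * Ep := by ring
        rw [h3]
        linarith
      · rw [not_le] at hD
        classical
        have hex : ∃ z', z ≤ z' ∧ δ < RECD z' z := ⟨Q, hzQ, hD⟩
        obtain ⟨z', hz', hmin⟩ : ∃ z', (z ≤ z' ∧ δ < RECD z' z) ∧
            ∀ m < z', ¬ (z ≤ m ∧ δ < RECD m z) :=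
          ⟨Nat.find hex, Nat.find_spec hex, fun m hm => Nat.find_min hex hm⟩
        have hzQ' : z' ≤ Q := by
          by_contra hcon
          exact hmin Q (not_le.1 hcon) ⟨hzQ, hD⟩
        have hne : z ≠ z' := by
          rintro rfl
          have := hz'.2
          rw [RECD_self] at this
          linarith
        have hlt : z < z' := lt_of_le_of_ne hz'.1 hne
        obtain ⟨m, rfl⟩ : ∃ m, z' = m + 1 := ⟨z' - 1, by omega⟩
        have hm : RECD m z ≤ δ := by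
          have := hmin m (by omega)
          push Not at this
          exact this (by omega)
        have h2 : RECD (m + 1) z ≤ 2 * δ := by
          have h3 := RECD_succ z m
          have h4 : 1 / ((m : ℝ) + 1) ≤ 1 / (y : ℝ) := by
            apply one_div_le_one_div_of_le hy0
            exact_mod_cast (by omega : y ≤ m + 1)
          have h5 : 1 / (y : ℝ) ≤ C / (y : ℝ) :=
            div_le_div_of_nonneg_right (by linarith) hy0.le
          linarith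
        have h3 := step z (m + 1) hyz hlt.le hzQ' h2
        have h4 := ih (Q - (m + 1)) (by omega) (m + 1) rfl (by omega) hzQ'
        have h5 := RECD_add hlt.le hzQ'
        have h10 : (RECD Q (m + 1) / δ + 2) * (E * Ep) ≤ (RECD Q z / δ + 1) * (E * Ep) := by
          apply mul_le_mul_of_nonneg_right _ hEB
          rw [h5, add_div]
          have h11 : 1 ≤ RECD (m + 1) z / δ := by
            rw [le_div_iff₀ hδ]
            linarith [hz'.2]
          linarith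
        have h12 : (RECD Q z / δ + 1) * E * Ep = (RECD Q z / δ + 1) * (E * Ep) := by ring
        have h13 : (RECD Q (m + 1) / δ + 1) * E * Ep + E * Ep =
          (RECD Q (m + 1) / δ + 2) * (E * Ep) := by ring
        rw [h12]
        linarith
  have h1 := main (Q - y) y rfl le_rfl hyQ
  rw [hA, hA, hE, hEp] at h1
  exact h1

end Pool.Agent.N422.KT
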