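import Pool.Agent.N422.KT.KX
import Pool.Agent.N422.KT.PX
import Pool.Agent.N422.KT.NX
import Pool.Agent.N422.KT.WX
import Pool.Agent.N422.KT.HX
import Pool.Agent.N422.KT.RX
import Pool.Agent.N422.KT.LOW
import Pool.Agent.N422.KT.FX
import Pool.Agent.N422.LR.SQF
import Pool.Agent.N422.LG.MERB2
import Pool.Agent.N422.WS.GEN
import Pool.Agent.N422.NW.JEN

/-! Project KT: assembly. Author: helper422 (parts: helpers 648, 504, 383, 91, 323, 744, 492, 395; LR: 703; LG: 878). -/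

set_option autoImplicit false

namespace Pool.Agent.N422.KT

open Finset Pool.Agent.N422.NW Pool.Agent.N422.SL Pool.Agent.N422.WS Pool.Agent.N422.LG Pool.Agent.N422.LR

theorem fx_all : Pool.Agent.N422.KT.S_FX :=
  Pool.Agent.N422.KT.t_FX (Pool.Agent.N422.KT.t_RX (Pool.Agent.N422.KT.t_HX (Pool.Agent.N422.KT.t_WX
    (Pool.Agent.N422.KT.t_NX Pool.Agent.N422.KT.t_KX Pool.Agent.N422.KT.t_PX t_AV (t_GEN2 t_JEN t_AV)))))
    Pool.Agent.N422.KT.t_LOW t_MERB2 Pool.Agent.N422.LR.t_SQF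

end Pool.Agent.N422.KT
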