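import Pool.Agent.N422.KT.Stm
import Pool.Agent.N422.LR.KX

/-! Project KT (helper422), part KT/KX (helper648, after LR/KX of helper37): the kernel which undoes hits and its
adjoint, with `κ` classes hitting every site. -/

set_option autoImplicit false

open Finset

namespace Pool.Agent.N422.KT

open Pool.Agent.N422.NW Pool.Agent.N422.SL Pool.Agent.N422.WS Pool.Agent.N422.LG Pool.Agent.N422.LR

/-- the number of the classes which hit a set of sites -/
lemma KXk_count {k m κ : ℕ} (τ : Fin m → Option (Fin k))
    (h1 : ∀ a : Fin k, (univ.filter (fun u => τ u = some a)).card = κ) (s : Finset (Fin k)) :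
    ∑ u, (if Hit s (τ u) then (1 : ℝ) else 0) = κ * s.card := by
  have h2 : ∀ u, (if Hit s (τ u) then (1 : ℝ) else 0) =
      ∑ a ∈ s, (if τ u = some a then (1 : ℝ) else 0) := by
    intro u
    by_cases h : Hit s (τ u)
    · rw [if_pos h]
      obtain ⟨a, ha, hu⟩ := h
      rw [sum_eq_single a]
      · rw [if_pos hu]
      · intro b _ hb
        rw [if_neg]
        intro h3
        rw [hu, Option.some_inj] at h3
        exact hb h3.symm
      · intro h3
        exact absurd ha h3
    · rw [if_neg h, sum_eq_zero]
      intro a ha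
      rw [if_neg]
      intro h3
      exact h ⟨a, ha, h3⟩
  rw [sum_congr rfl fun u _ => h2 u, sum_comm]
  have h3 : ∀ a ∈ s, ∑ u, (if τ u = some a then (1 : ℝ) else 0) = κ := by
    intro a _
    rw [← sum_filter, sum_const, h1, nsmul_eq_mul, mul_one]
  rw [sum_congr rfl h3, sum_const, nsmul_eq_mul, mul_comm]

/-- the local computation -/
lemma KXk_local {k m κ : ℕ} (τ : Fin m → Option (Fin k))
    (h1 : ∀ a : Fin k, (univ.filter (fun u => τ u = some a)).card = κ) (s : Finset (Fin k))
    (Q r : ℝ) (hr : r < 1) (c : Fin m) :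
    ∑ u, (if Hit s (τ u) then 1 / (1 - r) else 1 - r / (1 - r) * (κ * (s.card : ℝ) / (Q - κ * s.card))) *
      ((if Hit s (τ u) then 1 - r else 1) * (if c = u then 1 else 0) +
        (if Hit s (τ u) then r else 0) * (if Hit s (τ c) then 0 else 1 / (Q - κ * s.card))) = 1 := by
  have hr' : 1 - r ≠ 0 := by
    intro h
    linarith
  have h2 : ∀ u, (if Hit s (τ u) then 1 / (1 - r) else
      1 - r / (1 - r) * (κ * (s.card : ℝ) / (Q - κ * s.card))) *
      ((if Hit s (τ u) then 1 - r else 1) * (if c = u then 1 else 0) +
        (if Hit s (τ u) then r else 0) * (if Hit s (τ c) then 0 else 1 / (Q - κ * s.card))) =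
      (if c = u then (if Hit s (τ u) then 1 else
        1 - r / (1 - r) * (κ * (s.card : ℝ) / (Q - κ * s.card))) else 0) +
      (r / (1 - r) * (if Hit s (τ c) then 0 else 1 / (Q - κ * s.card))) *
        (if Hit s (τ u) then 1 else 0) := by
    intro u
    by_cases hu : Hit s (τ u)
    · simp only [if_pos hu]
      by_cases hc : c = u
      · simp only [if_pos hc]
        field_simp
      · simp only [if_neg hc]
        field_simp
    · simp only [if_neg hu]
      by_cases hc : c = u
      · simp only [if_pos hc]
        ring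
      · simp only [if_neg hc]
        ring
  rw [sum_congr rfl fun u _ => h2 u, sum_add_distrib, sum_ite_eq, if_pos (mem_univ _), ← mul_sum,
    KXk_count τ h1]
  by_cases h : Hit s (τ c)
  · rw [if_pos h, if_pos h]
    ring
  · rw [if_neg h, if_neg h]
    ring

theorem t_KX : Pool.Agent.N422.KT.S_KX := by
  intro N k κ q σ r hq hone hr
  have hcard : ∀ s : Finset (Fin k), (s.card : ℝ) ≤ k := by
    intro s
    have := card_le_univ s
    rw [Fintype.card_fin] at this
    exact_mod_cast this
  have hqk : ∀ i, 2 * ((κ : ℝ) * k) ≤ q i ∧ (0 : ℝ) < q i := fun i =>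
    ⟨by exact_mod_cast (hq i).1, by exact_mod_cast (hq i).2⟩
  have hks : ∀ s : Finset (Fin k), (κ : ℝ) * s.card ≤ κ * k := fun s =>
    mul_le_mul_of_nonneg_left (hcard s) (Nat.cast_nonneg _)
  have hpos : ∀ (i : Fin N) (s : Finset (Fin k)), 0 < (q i : ℝ) - κ * s.card := by
    intro i s
    have h1 := hks s
    have h2 := hqk i
    linarith [h2.1, h2.2]
  refine ⟨fun x x' => ?_, fun x => ?_, fun x' => ?_, fun x x' => ?_⟩
  · refine prod_nonneg fun i _ => ?_
    unfold ky1
    have h1 : 0 ≤ 1 - r i := by linarith [(hr i).2]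
    have h2 : (0 : ℝ) ≤ 1 / ((q i : ℝ) - κ * ((al σ x i).card : ℝ)) :=
      div_nonneg zero_le_one (hpos i _).le
    refine add_nonneg (mul_nonneg ?_ ?_) (mul_nonneg ?_ ?_)
    · split_ifs
      · exact h1
      · exact zero_le_one
    · split_ifs
      · exact zero_le_one
      · exact le_rfl
    · split_ifs
      · exact (hr i).1
      · exact le_rfl
    · split_ifs
      · exact le_rfl
      · exact h2
  · refine prod_pos fun i _ => ?_
    have h1 : 0 < 1 - r i := by linarith [(hr i).2]
    split_ifs
    · exact div_pos one_pos h1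
    · have h2 := hpos i (al σ x i)
      have h3 := hks (al σ x i)
      have h4 := (hqk i).1
      have h5 : κ * ((al σ x i).card : ℝ) / ((q i : ℝ) - κ * ((al σ x i).card : ℝ)) ≤ 1 := by
        rw [div_le_one h2]
        linarith
      have h6 : r i / (1 - r i) ≤ 1 / 2 := by
        rw [div_le_iff₀ h1]
        linarith [(hr i).2]
      have h7 : 0 ≤ r i / (1 - r i) := div_nonneg (hr i).1 h1.le
      have h8 : 0 ≤ κ * ((al σ x i).card : ℝ) / ((q i : ℝ) - κ * ((al σ x i).card : ℝ)) :=
        div_nonneg (mul_nonneg (Nat.cast_nonneg _) (Nat.cast_nonneg _)) h2.le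
      nlinarith
  · have h2 := KX_key N q (fun i x c =>
      (if Hit (al σ x i) (σ i c) then 1 / (1 - r i) else
        1 - r i / (1 - r i) * (κ * ((al σ x i).card : ℝ) / ((q i : ℝ) - κ * ((al σ x i).card : ℝ)))) *
      ((if Hit (al σ x i) (σ i c) then 1 - r i else 1) * (if x' i = c then 1 else 0) +
        (if Hit (al σ x i) (σ i c) then r i else 0) *
        (if Hit (al σ x i) (σ i (x' i)) then 0 else 1 / ((q i : ℝ) - κ * ((al σ x i).card : ℝ)))))
      (fun _ => 1) (fun i => (hq i).2) ?_ ?_
    · rw [prod_const_one] at h2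
      rw [← h2]
      refine sum_congr rfl fun x _ => ?_
      unfold phy ky ky1
      rw [← prod_mul_distrib]
    · intro i g g' c h
      have ha : al σ g i = al σ g' i := by
        unfold al
        ext a
        simp only [mem_filter, mem_univ, true_and]
        constructor
        · intro h3 j hj
          rw [← h j hj]
          exact h3 j hj
        · intro h3 j hj
          rw [h j hj]
          exact h3 j hj
      simp only [ha]
    · intro i g
      exact KXk_local (σ i) (hone i) (al σ g i) (q i) (r i) (by linarith [(hr i).2]) (x' i)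
  · unfold ky ky1
    have h1 : ∀ i : Fin N, ((if Hit (al σ x i) (σ i (x i)) then (1 : ℂ) - 0 else 1) *
        (if x' i = x i then 1 else 0) + (if Hit (al σ x i) (σ i (x i)) then (0 : ℂ) else 0) *
        (if Hit (al σ x i) (σ i (x' i)) then 0 else
          1 / ((q i : ℂ) - κ * ((al σ x i).card : ℂ)))) = if x' i = x i then 1 else 0 := by
      intro i
      split_ifs <;> simp
    rw [prod_congr rfl fun i _ => h1 i]
    by_cases h : x' = x
    · rw [if_pos h, prod_eq_one]
      intro i _
      rw [if_pos (congrFun h i)]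
    · rw [if_neg h]
      obtain ⟨i, hi⟩ := Function.ne_iff.1 h
      exact prod_eq_zero (mem_univ i) (if_neg hi)

end Pool.Agent.N422.KT
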