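import Pool.Agent.N422.LR.Stm

/-! Project KT (helper422): no sieve (real weights) of level `Q` detects polylogarithmic gaps between prime `κ`-tuples:
definitions and statements of the self-contained pieces. -/

set_option autoImplicit false

open Finset

namespace Pool.Agent.N422.KT

open Pool.Agent.N422.NW Pool.Agent.N422.SL Pool.Agent.N422.WS Pool.Agent.N422.LG Pool.Agent.N422.LR

/-- every site is hit by exactly `κ` classes -/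
def Kap {N k : ℕ} {q : Fin N → ℕ} (κ : ℕ) (σ : (i : Fin N) → Fin (q i) → Option (Fin k)) : Prop :=
  ∀ (i : Fin N) (a : Fin k), (univ.filter (fun u => σ i u = some a)).card = κ

/-- the local kernel: a hit of a site alive is undone with rate `r` -/
noncomputable def ky1 {K : Type} [Field K] {N k : ℕ} {q : Fin N → ℕ} (κ : ℕ)
    (σ : (i : Fin N) → Fin (q i) → Option (Fin k)) (r : Fin N → K) (x : Xs q) (i : Fin N) (c : Fin (q i)) : K :=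
  (if Hit (al σ x i) (σ i (x i)) then 1 - r i else 1) * (if c = x i then 1 else 0) +
    (if Hit (al σ x i) (σ i (x i)) then r i else 0) *
      (if Hit (al σ x i) (σ i c) then 0 else 1 / ((q i : K) - κ * ((al σ x i).card : K)))

/-- the kernel -/
noncomputable def ky {K : Type} [Field K] {N k : ℕ} {q : Fin N → ℕ} (κ : ℕ)
    (σ : (i : Fin N) → Fin (q i) → Option (Fin k)) (r : Fin N → K) (x x' : Xs q) : K :=
  ∏ i : Fin N, ky1 κ σ r x i (x' i)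

/-- the density -/
noncomputable def phy {N k : ℕ} {q : Fin N → ℕ} (κ : ℕ) (σ : (i : Fin N) → Fin (q i) → Option (Fin k))
    (r : Fin N → ℝ) (x : Xs q) : ℝ :=
  ∏ i : Fin N, (if Hit (al σ x i) (σ i (x i)) then 1 / (1 - r i) else
    1 - r i / (1 - r i) * (κ * ((al σ x i).card : ℝ) / ((q i : ℝ) - κ * ((al σ x i).card : ℝ))))

/-- the adjoint of the kernel (KT/KX) -/
def S_KX : Prop := ∀ (N k κ : ℕ) (q : Fin N → ℕ) (σ : (i : Fin N) → Fin (q i) → Option (Fin k)) (r : Fin N → ℝ),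
  (∀ i, 2 * (κ * k) ≤ q i ∧ 0 < q i) → Kap κ σ → (∀ i, 0 ≤ r i ∧ r i ≤ 1 / 3) →
  (∀ x x', 0 ≤ ky κ σ r x x') ∧ (∀ x, 0 < phy κ σ r x) ∧ (∀ x', ∑ x, phy κ σ r x * ky κ σ r x x' = 1) ∧
  ∀ x x' : Xs q, ky κ σ (fun _ => (0 : ℂ)) x x' = if x' = x then 1 else 0

/-- polynomials (KT/PX) -/
def S_PX : Prop := ∀ (N k κ n : ℕ) (q : Fin N → ℕ) (σ : (i : Fin N) → Fin (q i) → Option (Fin k)) (ν : Fin N → ℕ)
  (f : Xs q → ℝ), (∀ i, 2 * (κ * k) ≤ q i ∧ 0 < q i) → Kap κ σ → LevX ν n f → ∀ (c R : Fin N → ℝ) (x : Xs q),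
  ∃ P : Polynomial ℂ, ∀ z : ℂ, z ≠ 0 →
    P.eval z = z ^ n * ∑ x', ky κ σ (fun i => (R i : ℂ) * ((c i : ℂ) - (z ^ ν i + (z⁻¹) ^ ν i) / 2)) x x' * (f x' : ℂ)

/-- the main inequality (KT/NX) -/
def S_NX : Prop := ∀ (N k κ n : ℕ) (q : Fin N → ℕ) (σ : (i : Fin N) → Fin (q i) → Option (Fin k)) (ν : Fin N → ℕ)
  (f : Xs q → ℝ), (∀ i, 2 * (κ * k) ≤ q i ∧ 0 < q i) → Kap κ σ → LevX ν n f → ∀ t : ℝ, 0 < t → ∀ R : Fin N → ℝ,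
  (∀ i, 0 ≤ R i ∧ R i * (Real.cosh (ν i * t) + 1) ≤ 1 / 4) → 0 < ∑ x, max (f x) 0 →
  ∑ x, max (f x) 0 * ∑ i : Fin N, R i * Real.sinh (ν i * t) * ((if Hit (al σ x i) (σ i (x i)) then 1 else 0) -
      (1 + 8 * R i * Real.cosh (ν i * t) + 2 * (κ * k) / q i) * (κ * ((al σ x i).card : ℝ) / q i)) ≤
    (n * t + Real.log ((∑ x, |f x|) / ∑ x, max (f x) 0)) * ∑ x, max (f x) 0

/-- the model, one window (KT/WX) -/
def S_WX : Prop := ∀ (N k κ m n : ℕ) (q : Fin N → ℕ) (σ : (i : Fin N) → Fin (q i) → Option (Fin k)) (ν : Fin N → ℕ)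
  (f : Xs q → ℝ) (l ρ : ℝ), 0 < m → (∀ i, 2 * (κ * k) ≤ q i ∧ 0 < q i) → (∀ i, (κ * k : ℝ) / q i ≤ ρ) → 0 ≤ ρ →
  Kap κ σ → (∀ i, m ≤ ν i) → LevX ν n f → 0 < l → l ≤ 1 / 16 →
  ∑ x, max (f x) 0 * ((k : ℝ) - ((al σ x N).card : ℝ)) ≤
    (1 + 11 * l + 2 * ρ) * (κ * ∑ i, 1 / (q i : ℝ)) * (k * ∑ x, max (f x) 0) +
      ((n / m) * (∑ x, max (f x) 0) + ∑ x, max (-f x) 0) / l

/-- the `h ≤ U` for which all `n + h + g`, `g ∈ H`, are free of primes `≤ z` -/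
def SH (H : Finset ℕ) (U z n : ℕ) : Finset ℕ :=
  (Icc 1 U).filter (fun h => ∀ p ∈ (Icc 1 z).filter Nat.Prime, ∀ g ∈ H, ¬ p ∣ n + h + g)

/-- one window for a real function (KT/HX) -/
def S_HX : Prop := ∀ (H : Finset ℕ) (Q U z z' b D : ℕ) (l : ℝ) (c : ℕ → ℕ → ℝ), 2 ≤ z → z ≤ z' → z' ≤ Q → 1 ≤ b →
  1 ≤ D → (∀ g ∈ H, ∀ g' ∈ H, g < g' + D) → b + D ≤ z → 2 * (H.card * b) ≤ z → 0 < l → l ≤ 1 / 16 →
  mP Q (fun n => max (ws Q c n) 0 * ((SH H U z n).card : ℝ)) -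
      mP Q (fun n => max (ws Q c n) 0 * ((SH H U z' n).card : ℝ)) ≤
    (1 + 11 * l + 2 * (H.card * b / z)) * (H.card * ∑ p ∈ PQ z' z, 1 / (p : ℝ)) *
      mP Q (fun n => max (ws Q c n) 0 * ((SH H U z n).card : ℝ)) +
    (U / b + 1) * D * (((2 * (Real.log Q / Real.log z)) * mP Q (fun n => max (ws Q c n) 0) +
      mP Q (fun n => max (-ws Q c n) 0)) / l)

/-- the recursion over the scales (KT/RX) -/
def S_RX : Prop := ∀ H : Finset ℕ, H.Nonempty → ∃ C : ℝ, 1 ≤ C ∧ ∀ (Q U y : ℕ) (δ K : ℝ) (c : ℕ → ℕ → ℝ), 2 ≤ y →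
  y ≤ Q → 0 < δ → δ ≤ 1 / C → C / (y : ℝ) ≤ δ → 0 < mP Q (ws Q c) →
  (∀ z : ℕ, y ≤ z → z ≤ Q → Real.exp (-(∑ p ∈ PQ Q z, 1 / (p : ℝ))) * (Real.log Q / Real.log z) ≤ K) →
  Real.exp (-((1 + C * δ) * (H.card * ∑ p ∈ PQ Q y, 1 / (p : ℝ)))) *
      mP Q (fun n => max (ws Q c n) 0 * ((SH H U y n).card : ℝ)) -
    ((∑ p ∈ PQ Q y, 1 / (p : ℝ)) / δ + 1) * ((U / y + 1) * (C * K / δ ^ 2)) * mP Q (fun n => max (ws Q c n) 0) ≤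
    mP Q (fun n => max (ws Q c n) 0 * ((SH H U Q n).card : ℝ))

/-- admissible sets -/
def Adm (H : Finset ℕ) : Prop := ∀ p : ℕ, p.Prime → ∃ a : ℕ, ∀ g ∈ H, ¬ p ∣ a + g

/-- lower bound sieve for tuples (KT/LOW) -/
def S_LOW : Prop := ∀ H : Finset ℕ, H.Nonempty → Adm H → ∃ (C y0 : ℕ) (κ : ℝ), 1 ≤ C ∧ 0 < κ ∧ ∀ y : ℕ, y0 ≤ y →
  ∀ U : ℕ, y ^ C ≤ U → ∀ n : ℕ, κ * (U / Real.log y ^ H.card) ≤ ((SH H U y n).card : ℝ)

/-- the theorem (KT/FX) -/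
def S_FX : Prop := ∀ H : Finset ℕ, H.Nonempty → Adm H → ∃ C Q0 : ℕ, ∀ Q : ℕ, Q0 ≤ Q → ∀ U : ℕ, Real.log Q ^ C ≤ U →
  ∀ c : ℕ → ℕ → ℝ, (∀ n, (SH H U Q n).Nonempty → wt Q c n ≤ 0) → mQ Q (wt Q c) ≤ 0

end Pool.Agent.N422.KT
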